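import Pool.Agent.Helper26.NE.Nam
import Pool.Agent.Helper34.SG.Names

/-!
# The combinatorial core theorem for an abstract poset (interface)
-/

open Ordinal

set_option linter.unusedSectionVars false

namespace Pool.Agent.Helper26.NE

open Pool.Agent.Helper96.Fc
open Pool.Agent.Helper34.SG (NbC NbR)

variable {P : Type} [PartialOrder P] [OrderTop P]

/-- `p` forces that the closed set is nowhere dense -/
def NWDn (C : CN P) (p : P) : Prop := ∀ q ≤ p, ∀ σ, ∃ r ≤ q, ∃ τ, σ <+: τ ∧ C.O τ r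

/-- `r` forces that the point `x` belongs to the closed set number `j` with the code `A` -/
def FIn (x : PN P) (A : ℕ → P → Prop) (j : ℕ) (r : P) : Prop :=
  ∀ s, ∀ p ≤ r, A (Nat.pair j (Encodable.encode s)) p → ∀ q ≤ p, ¬ x.D s q

/-- `q` forces that the sum of `x₁` and `x₂` belongs to the closed set `C` -/
def SumIn (Nb : List Bool → List Bool → Finset (List Bool)) (x₁ x₂ : PN P) (C : CN P) (q : P) :
    Prop :=
  ∀ r ≤ q, ∀ ρ τ, ρ.length = τ.length → x₁.D ρ r → x₂.D τ r → ¬ ∀ l ∈ Nb ρ τ, C.O l r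

/-- the conclusion of the combinatorial core theorem -/
def Main (P : Type) [PartialOrder P] {A : Type} (E : A → ℕ → P → Prop)
    (Nb : List Bool → List Bool → Finset (List Bool)) : Prop :=
  ∀ (p : P) (GG : PN P → P → Prop), (∀ x q r, r ≤ q → GG x q → GG x r) →
    ∀ C : ℕ → CN P, (∀ n, ∀ q ≤ p, ∀ σ, ∃ r ≤ q, ∃ τ, σ <+: τ ∧ (C n).O τ r) →
      (∀ α, ∀ q ≤ p, ∃ q' ≤ q, ∃ x, GG x q' ∧ ∀ j, ∀ r ≤ q',
        ¬ ∀ s, ∀ p ≤ r, E α (Nat.pair j (Encodable.encode s)) p → ∀ q ≤ p, ¬ x.D s q) →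
      (∀ x₁ x₂, ∀ q ≤ p, GG x₁ q → GG x₂ q → ∃ q' ≤ q, ∃ n, ∀ r ≤ q', ∀ ρ τ,
        ρ.length = τ.length → x₁.D ρ r → x₂.D τ r → ¬ ∀ l ∈ Nb ρ τ, (C n).O l r) → False

/-- the closed set number `j` with the code `A` is covered by finitely many basic sets of small
measure -/
def NullAt (A : ℕ → P → Prop) (j k : ℕ) (p : P) : Prop :=
  ∃ (n : ℕ) (S : Finset (List Bool)), (∀ s ∈ S, s.length = n) ∧ S.card * 2 ^ k ≤ 2 ^ n ∧
    ∀ s : List Bool, s.length = n → s ∉ S → A (Nat.pair j (Encodable.encode s)) p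

/-- everything needed from the combinatorial side -/
structure Side (P : Type) [PartialOrder P] {A : Type} (E : A → ℕ → P → Prop) : Prop where
  mono : ∀ α k p q, q ≤ p → E α k p → E α k q
  null : ∀ α j k p, ∃ q ≤ p, NullAt (E α) j k q
  cantor : Main P E NbC
  circle : Main P E NbR

end Pool.Agent.Helper26.NE
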