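import Pool.Agent.Helper26.NE.Defs
import Pool.Agent.Helper26.FV.DF
import Pool.Agent.Helper96.Fc.Good

/-!
# Names of sets of natural numbers, evaluation, good pairs with many closure conditions
-/

open Ordinal

set_option linter.unusedSectionVars false

namespace Pool.Agent.Helper26.NE

open Pool.Agent.Helper96.Fc


theorem mem_om {z : ZFSet.{0}} : z ∈ om ↔ ∃ n, z = nat n := Helper89.FV.mem_om

theorem nat_inj {m n : ℕ} (h : nat m = nat n) : m = n := Helper89.FV.nat_inj h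

theorem nat_zero : nat 0 = ∅ := Helper89.FV.nat_zero

theorem nat_succ (n : ℕ) : nat (n + 1) = insert (nat n) (nat n) := Helper89.FV.nat_succ n

theorem nat_mem_om (n : ℕ) : nat n ∈ om := mem_om.2 ⟨n, rfl⟩

/-- a set of natural numbers, as a set -/
noncomputable def zs (A : Set ℕ) : ZFSet.{0} := ZFSet.sep (fun z => ∃ n ∈ A, z = nat n) om

theorem mem_zs {A : Set ℕ} {z : ZFSet.{0}} : z ∈ zs A ↔ ∃ n ∈ A, z = nat n := by
  rw [zs, ZFSet.mem_sep]
  constructor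
  · rintro ⟨-, h⟩; exact h
  · rintro ⟨n, hn, rfl⟩; exact ⟨nat_mem_om n, n, hn, rfl⟩

theorem nat_mem_zs {A : Set ℕ} {n : ℕ} : nat n ∈ zs A ↔ n ∈ A := by
  rw [mem_zs]
  constructor
  · rintro ⟨m, hm, h⟩
    rwa [nat_inj h]
  · exact fun h => ⟨n, h, rfl⟩

theorem zs_inj {A B : Set ℕ} (h : zs A = zs B) : A = B := by
  ext n
  rw [← nat_mem_zs, h, nat_mem_zs]

theorem zs_subset (A : Set ℕ) : zs A ⊆ om := fun z hz => by
  obtain ⟨n, -, rfl⟩ := mem_zs.1 hz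
  exact nat_mem_om n

theorem exists_zs {z : ZFSet.{0}} (h : z ⊆ om) : ∃ A, z = zs A := by
  refine ⟨{n | nat n ∈ z}, ?_⟩
  ext w
  rw [mem_zs]
  constructor
  · intro hw
    obtain ⟨n, rfl⟩ := mem_om.1 (h hw)
    exact ⟨n, hw, rfl⟩
  · rintro ⟨n, hn, rfl⟩
    exact hn

theorem st_eq (x : ℕ → Bool) : st x = zs {n | x n = true} := by
  ext z
  rw [mem_zs, st, ZFSet.mem_sep]
  constructor
  · rintro ⟨-, n, h1, h2⟩
    exact ⟨n, h1, h2⟩
  · rintro ⟨n, h1, rfl⟩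
    exact ⟨nat_mem_om n, n, h1, rfl⟩

theorem st_inj {x y : ℕ → Bool} (h : st x = st y) : x = y := by
  rw [st_eq, st_eq] at h
  have h1 := zs_inj h
  funext n
  have h2 : n ∈ {n | x n = true} ↔ n ∈ {n | y n = true} := by rw [h1]
  simp only [Set.mem_ofPred_eq] at h2
  cases hx : x n <;> cases hy : y n <;> simp_all

/-- a set of natural numbers as a point -/
noncomputable def pt (A : Set ℕ) : ℕ → Bool := fun n => by classical exact decide (n ∈ A)

theorem st_pt (A : Set ℕ) : st (pt A) = zs A := by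
  rw [st_eq]
  congr 1
  ext n
  simp [pt]

theorem ct_eq (r : ℝ) : ct r = zs {n | ∃ q : ℚ, (q : ℝ) < r ∧ n = Encodable.encode q} := by
  ext z
  rw [mem_zs, ct, ZFSet.mem_sep]
  constructor
  · rintro ⟨-, q, h1, h2⟩
    exact ⟨_, ⟨q, h1, rfl⟩, h2⟩
  · rintro ⟨n, ⟨q, h1, rfl⟩, rfl⟩
    exact ⟨nat_mem_om _, q, h1, rfl⟩

theorem mem_ct {r : ℝ} {q : ℚ} : nat (Encodable.encode q) ∈ ct r ↔ (q : ℝ) < r := by
  rw [ct_eq, nat_mem_zs]
  constructor
  · rintro ⟨q', h1, h2⟩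
    rwa [Encodable.encode_injective h2]
  · exact fun h => ⟨q, h, rfl⟩

theorem ct_inj {r s : ℝ} (h : ct r = ct s) : r = s := by
  by_contra hrs
  rcases lt_or_gt_of_ne hrs with h1 | h1
  · obtain ⟨q, h2, h3⟩ := exists_rat_btwn h1
    exact absurd (mem_ct.1 (h ▸ mem_ct.2 h3)) (not_lt.2 h2.le)
  · obtain ⟨q, h2, h3⟩ := exists_rat_btwn h1
    exact absurd (mem_ct.1 (h ▸ mem_ct.2 h3)) (not_lt.2 h2.le)

end Pool.Agent.Helper26.NE
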