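import Pool.Agent.Helper26.NE.Gp

/-!
# The Cantor group
-/

open Ordinal

set_option linter.unusedSectionVars false

namespace Pool.Agent.Helper26.NE

open Pool.Agent.Helper96.Fc
open Pool.Agent.Helper34.SG (NbC)

variable {P : Type} [PartialOrder P] [OrderTop P]

/-- the system of the Cantor group -/
def SC (P : Type) [PartialOrder P] [OrderTop P] : Sys P where
  GG g x p := FMem (nm x) g p
  mono _ _ _ _ h h1 := h1.mono h
  CF c n := CC c n
  K c n s r := KC c n s r
  CF_iff _ _ _ _ := CC_O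
  Nb := NbC

variable {X : Set (Obj P)} {G : Set P}

theorem pt_set (x : ℕ → Bool) : pt {n | x n = true} = x := by
  funext n
  cases h : x n <;> simp [pt, h]

theorem init_unique {s t : List Bool} {x : ℕ → Bool} (h : s.length = t.length) (hs : Init s x)
    (ht : Init t x) : s = t := by
  rw [init_iff] at hs ht
  rw [hs, ht, h]

/-- decision of an initial segment -/
theorem exists_D (hb : Basic X G) {x : PN P}
    (hlen : ∀ k, ∃ p ∈ G, ∃ s, s.length = k ∧ x.D s p) {s : List Bool} (hs : Init s (ev x G)) :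
    ∃ p ∈ G, x.D s p := by
  obtain ⟨p, hp, t, ht, hD⟩ := hlen s.length
  have h1 := ev_init hb.filt x hp hD
  rw [init_unique ht.symm hs h1]
  exact ⟨p, hp, hD⟩

theorem ev_rn (hb : Basic X G) (hc : Clos X) {τ : Nm P} (hτ : (Sum.inl τ : Obj P) ∈ X)
    (hlen : ∀ k, ∃ p ∈ G, ∃ s, s.length = k ∧ (rn τ).D s p) {x : ℕ → Bool}
    (hx : val X G τ = st x) : ev (rn τ) G = x := by
  have h1 := val_nm_rn hb hc hτ hlen hx
  rw [val_nm hb hc] at h1
  exact st_inj h1

/-- the point named by `rn τ` does not belong to the basic sets killed by the code if the point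
is forced to be in the closed set -/
theorem fin_truth (hb : Basic X G) {τ : Nm P} {A : Type} {E : A → ℕ → P → Prop}
    (hlen : ∀ k, ∃ p ∈ G, ∃ s, s.length = k ∧ (rn τ).D s p) {α : A} {j : ℕ} {p : P} (hp : p ∈ G)
    (hF : FIn (rn τ) (E α) j p) (hE : ∀ α k p q, q ≤ p → E α k p → E α k q) {s : List Bool}
    (hs : Init s (ev (rn τ) G)) {q : P} (hq : q ∈ G)
    (h : E α (Nat.pair j (Encodable.encode s)) q) : False := by
  obtain ⟨r, hr, hD⟩ := exists_D hb hlen hs
  obtain ⟨u, -, h1, h2, h3⟩ := common hb hp hq hr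
  exact hF s u h1 (hE _ _ _ _ h2 h) u le_rfl ((rn τ).mono _ _ _ h3 hD)

/-- **The Cantor group.** -/
theorem cantor_side {A : Type} {E : A → ℕ → P → Prop} {Sy : ℕ → Sys P} {Tb : ℕ → ℕ → ℕ → Prop}
    (hS : Side P E) (h : GP E Sy Tb X G) {b : ℕ} (hSy : Sy b = SC P)
    (hTF : T2 (Mod X G) RF) (hT1 : T2 (Mod X G) R1) (hT2 : T2 (Mod X G) R2) {𝒢 : ZFSet.{0}}
    (hG : Subgroup (Mod X G) 𝒢) (hM : Meagre (Mod X G) 𝒢) : InE (Mod X G) 𝒢 := by
  by_contra hE
  have hb := h.basic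
  have hc := h.clos
  have hN : IsZFC (Mod X G) := Mod.isZFC hb hc
  obtain ⟨⟨hGN, hpts⟩, -, hadd⟩ := hG
  obtain ⟨g, hg, rfl⟩ := id hGN
  obtain ⟨F, hF, hfun, hQ, hcov⟩ := hM
  obtain ⟨c, hcN, hcode⟩ := exists_code hN hTF hT1 hT2 hF
  obtain ⟨κ, hκ, hκv⟩ := id hcN
  have hD : Dic E (SC P) X G := hSy ▸ h.dic b
  -- the points of the subgroup
  have key : ∀ x, st x ∈ val X G g → ∃ n, ∀ t, Init t x →
      nat (Nat.pair n (Encodable.encode t)) ∈ val X G κ := by
    intro x hx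
    obtain ⟨n, C, hnC, hxC⟩ := hcov _ hx
    refine ⟨n, fun t ht => ?_⟩
    rw [hκv, nat_mem_zs, hcode]
    refine ⟨n, C, {n | x n = true}, RF_iff.2 rfl, hnC, ?_, ?_⟩
    · rwa [← st_eq]
    · rw [Bs_iff, pt_set]
      exact ht
  refine core hb hD hS.cantor hg hκ ?_ ?_ ?_
  · intro p hp α hα hB
    apply hE
    have he : zs {n | ∃ p ∈ G, E α n p} ∈ Mod X G := by
      rw [← val_nmS hb hc]
      exact mem_Mod (h.enm α hα)
    obtain ⟨S, hSN, hS1, hS2⟩ := exists_points hN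
    obtain ⟨F', hF', hf, htot, hmem⟩ := exists_sets hN hTF hT1 hT2 he hSN hS1
    refine ⟨F', hF', hf, ?_, ?_⟩
    · intro n C hnC
      obtain ⟨hC1, hC2, hC3⟩ := hmem n C hnC
      refine ⟨⟨hC1, fun z hz => ?_⟩, ?_, ?_⟩
      · obtain ⟨x, rfl⟩ := exists_zs (hS1 _ (hC2 _ hz))
        exact ⟨pt x, (st_pt x).symm⟩
      · intro x hx hxC
        rw [st_eq, hC3, hS2] at hxC
        rw [st_eq] at hx
        push Not at hxC
        obtain ⟨k, hk, hkn, hkx⟩ := hxC hx
        obtain ⟨s, rfl⟩ := id hkn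
        rw [Bs_iff, pt_set] at hkx
        refine ⟨s, hkx, fun y hy hys => ?_⟩
        rw [st_eq, hC3] at hy
        refine hy.2 _ hk hkn ?_
        rw [Bs_iff, pt_set]
        exact hys
      · intro k
        obtain ⟨q, hq, m, T, hT, hcard, hmem'⟩ := h.null α hα n k
        refine ⟨m, T, hT, hcard, fun x hx => ?_⟩
        by_contra hcon
        push Not at hcon
        have h1 : seg x m ∉ T := fun h => hcon _ h (init_seg x m)
        rw [st_eq, hC3] at hx
        refine hx.2 _ ⟨q, hq, hmem' _ (seg_length x m) h1⟩ (RF_iff.2 rfl) ?_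
        rw [Bs_iff, pt_set]
        exact init_seg x m
    · intro z hz
      obtain ⟨x, rfl⟩ := hpts z hz
      by_contra hcon
      push Not at hcon
      have hxN : st x ∈ Mod X G := hN.trans _ hGN _ hz
      obtain ⟨τ, hτ, hτv⟩ := id hxN
      have hlen := h.len τ hτ
      have hev := ev_rn hb hc hτ hlen hτv
      have hv := val_nm hb hc (rn τ)
      rw [hev] at hv
      rw [← hv] at hz
      obtain ⟨q, hq, hFM⟩ := (hb.mem_iff (h.rnc τ hτ) hg).1 hz
      rcases h.fin τ α hτ hα with ⟨p', hp', j, hj⟩ | ⟨p', hp', hj⟩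
      · obtain ⟨C, hjC⟩ := htot j
        refine hcon j C hjC ?_
        obtain ⟨hC1, hC2, hC3⟩ := hmem j C hjC
        rw [st_eq, hC3, hS2]
        refine ⟨by rwa [← st_eq], fun k hk hkj hkx => ?_⟩
        obtain ⟨s, rfl⟩ := hkj
        rw [Bs_iff, pt_set] at hkx
        obtain ⟨p3, hp3, h3⟩ := hk
        rw [← hev] at hkx
        exact fin_truth hb hlen hp' hj hS.mono hkx hp3 h3
      · obtain ⟨u, -, h1, h2, h3⟩ := common hb hp hq hp'
        exact hB u h1 (rn τ) (hFM.mono h2) fun j r hr => hj r (hr.trans h3) j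
  · intro p hp x₁ x₂ hx₁ hx₂ hB
    have h1 : st (ev x₁ G) ∈ val X G g := by
      rw [← val_nm hb hc]
      exact (hb.mem_iff hx₁ hg).2 ⟨p, hp, hB.1⟩
    have h2 : st (ev x₂ G) ∈ val X G g := by
      rw [← val_nm hb hc]
      exact (hb.mem_iff hx₂ hg).2 ⟨p, hp, hB.2.1⟩
    obtain ⟨n, hn⟩ := key _ (hadd _ _ h1 h2)
    obtain ⟨q, hq, ρ, τ, hlen, hρ, hτ, hl⟩ := bad2_false hb hD hκ hp hx₁ hx₂ hB n
    have h3 := hl (List.zipWith xor ρ τ) (by simp [SC, NbC])
    have h4 := ev_init hb.filt x₁ hq hρ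
    have h5 := ev_init hb.filt x₂ hq hτ
    refine CC_truth hb hc hκ (fun s => hD.kc κ n s hκ) hn ?_ hq h3
    intro i b hib
    rw [List.getElem?_zipWith] at hib
    rcases h6 : ρ[i]? with _ | b1
    · simp [h6] at hib
    · rcases h7 : τ[i]? with _ | b2
      · simp [h7] at hib
      · simp only [h6, h7, Option.some.injEq] at hib
        show xor (ev x₁ G i) (ev x₂ G i) = b
        rw [h4 i _ h6, h5 i _ h7]
        exact hib
  · intro p hp n s hB
    have h1 : ∃ t, nat (Nat.pair n (Encodable.encode (s ++ t))) ∉ val X G κ := by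
      by_cases hC : ∃ C, ZFSet.pair (nat n) C ∈ F
      · obtain ⟨C, hC⟩ := hC
        obtain ⟨t, ht⟩ := (hQ n C hC).2 s
        refine ⟨t, fun hk => ?_⟩
        rw [hκv, nat_mem_zs, hcode] at hk
        obtain ⟨n', C', x, g1, g2, g3, g4⟩ := hk
        rw [RF_iff] at g1
        subst g1
        rw [hfun n C' C g2 hC] at g3
        rw [Bs_iff] at g4
        rw [← st_pt] at g3
        exact ht _ g3 g4
      · refine ⟨[], fun hk => ?_⟩
        rw [hκv, nat_mem_zs, hcode] at hk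
        obtain ⟨n', C', x, g1, g2, g3, g4⟩ := hk
        rw [RF_iff] at g1
        subst g1
        exact hC ⟨C', g2⟩
    obtain ⟨t, ht⟩ := h1
    obtain ⟨q, hq, hNI⟩ := exists_notIn hb hc hκ ht
    obtain ⟨u, -, h2, h3⟩ := hb.filt.compat hp hq
    refine hB u h2 (s ++ t) (List.prefix_append s t) ?_
    show (CC κ n).O (s ++ t) u
    rw [CC_O]
    intro v hv
    refine ⟨v, le_rfl, 0, fun w hw => ⟨s ++ t, ?_, hNI.mono (hv.trans h3)⟩⟩
    exact List.prefix_append _ _

end Pool.Agent.Helper26.NE
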