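import Pool.Agent.Helper26.NE.Abs

/-!
# Names of closed sets given by names of sets of natural numbers (Cantor space)
-/

open Ordinal

set_option linter.unusedSectionVars false

namespace Pool.Agent.Helper26.NE

open Pool.Agent.Helper96.Fc

variable {P : Type} [PartialOrder P] [OrderTop P]

/-- the closed set generated by a relation `K s r` (`r` decides that no point has the initial
segment `s`) -/
def mkCN (K : List Bool → P → Prop) (mono : ∀ s p q, q ≤ p → K s p → K s q)
    (ext : ∀ s b p, K s p → K (s ++ [b]) p)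
    (spl : ∀ s p, K (s ++ [false]) p → K (s ++ [true]) p → K s p) : CN P where
  O s p := ∀ q ≤ p, ∃ r ≤ q, K s r
  mono s p q hq h r hr := h r (hr.trans hq)
  dns s p h q hq := by
    obtain ⟨r, hr, h1⟩ := h q hq
    obtain ⟨r', hr', h2⟩ := h1 r le_rfl
    exact ⟨r', hr'.trans hr, h2⟩
  ext s b p h q hq := by
    obtain ⟨r, hr, h1⟩ := h q hq
    exact ⟨r, hr, ext s b r h1⟩
  spl s p h0 h1 q hq := by
    obtain ⟨r, hr, h2⟩ := h0 q hq
    obtain ⟨r', hr', h3⟩ := h1 r (hr.trans hq)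
    exact ⟨r', hr'.trans hr, spl s r' (mono _ _ _ hr' h2) h3⟩

/-- `r` forces that `k` does not belong to the set named by `c` -/
def NotIn (c : Nm P) (k : ℕ) (r : P) : Prop := ∀ q ≤ r, ¬ FMem (ordN P (k : Ordinal.{0})) c q

theorem NotIn.mono {c : Nm P} {k : ℕ} {r q : P} (h : NotIn c k r) (hq : q ≤ r) : NotIn c k q :=
  fun r' hr' => h r' (hr'.trans hq)

/-- all extensions of `s` of some length have an initial segment `t` such that `(m, t)` does not
belong to the set named by `c` -/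
def KC (c : Nm P) (m : ℕ) (s : List Bool) (r : P) : Prop :=
  ∃ l : ℕ, ∀ u : List Bool, u.length = l → ∃ t, t <+: s ++ u ∧
    NotIn c (Nat.pair m (Encodable.encode t)) r

theorem KC.up {c : Nm P} {m : ℕ} {s : List Bool} {r : P} {l l' : ℕ} (hl : l ≤ l')
    (h : ∀ u : List Bool, u.length = l → ∃ t, t <+: s ++ u ∧
      NotIn c (Nat.pair m (Encodable.encode t)) r) :
    ∀ u : List Bool, u.length = l' → ∃ t, t <+: s ++ u ∧
      NotIn c (Nat.pair m (Encodable.encode t)) r := by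
  intro u hu
  obtain ⟨t, ht, h1⟩ := h (u.take l) (by simp [hu, hl])
  exact ⟨t, ht.trans ((List.prefix_append_right_inj s).2 (List.take_prefix l u)), h1⟩

/-- the closed set number `m` with the code named by `c` -/
def CC (c : Nm P) (m : ℕ) : CN P :=
  mkCN (KC c m)
    (fun s p q hq h => by
      obtain ⟨l, hl⟩ := h
      refine ⟨l, fun u hu => ?_⟩
      obtain ⟨t, ht, h1⟩ := hl u hu
      exact ⟨t, ht, h1.mono hq⟩)
    (fun s b p h => by
      obtain ⟨l, hl⟩ := h
      have hl' := KC.up (Nat.le_succ l) hl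
      refine ⟨l, fun u hu => ?_⟩
      obtain ⟨t, ht, h1⟩ := hl' (b :: u) (by simp [hu])
      exact ⟨t, by simpa using ht, h1⟩)
    (fun s p h0 h1 => by
      obtain ⟨l0, h0⟩ := h0
      obtain ⟨l1, h1⟩ := h1
      refine ⟨max l0 l1 + 1, fun u hu => ?_⟩
      cases u with
      | nil => simp at hu
      | cons b u =>
        have hu' : u.length = max l0 l1 := by simpa using hu
        cases b with
        | false =>
          obtain ⟨t, ht, h2⟩ := KC.up (le_max_left l0 l1) h0 u hu'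
          exact ⟨t, by simpa using ht, h2⟩
        | true =>
          obtain ⟨t, ht, h2⟩ := KC.up (le_max_right l0 l1) h1 u hu'
          exact ⟨t, by simpa using ht, h2⟩)

theorem CC_O {c : Nm P} {m : ℕ} {s : List Bool} {p : P} :
    (CC c m).O s p ↔ ∀ q ≤ p, ∃ r ≤ q, KC c m s r := Iff.rfl

theorem dec_mem {X : Set (Obj P)} {G : Set P} (h : Basic X G) {x z : Nm P}
    (hx : (Sum.inl x : Obj P) ∈ X) (hz : (Sum.inl z : Obj P) ∈ X) :
    (∃ p ∈ G, FMem x z p) ∨ ∃ p ∈ G, ∀ q ≤ p, ¬ FMem x z q := by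
  obtain ⟨p, hp, h1⟩ := h.mem _ (mem2 hx hz)
  rcases h1 with ⟨y, hy, hR⟩ | h1
  · rcases y with y | y
    · obtain ⟨j, rfl, h2, h3⟩ := hR
      left
      exact ⟨p, hp, (FMem.of_fn j h2).congr_left h3.symm⟩
    · exact hR.elim
  · right
    refine ⟨p, hp, fun q hq hF => ?_⟩
    obtain ⟨r, hr, j, h2, h3⟩ := hF q le_rfl
    exact h1 r (hr.trans hq) (Sum.inl (z.fn j)) ⟨j, rfl, h2, h3⟩

section

variable {X : Set (Obj P)} {G : Set P}

theorem nat_mem_val (h : Basic X G) (hc : Clos X) {c : Nm P} (hcX : (Sum.inl c : Obj P) ∈ X)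
    (k : ℕ) : nat k ∈ val X G c ↔ ∃ p ∈ G, FMem (ordN P (k : Ordinal.{0})) c p := by
  rw [← h.mem_iff (natN_mem hc k) hcX, val_natN h hc]

theorem exists_notIn (h : Basic X G) (hc : Clos X) {c : Nm P} (hcX : (Sum.inl c : Obj P) ∈ X)
    {k : ℕ} (hk : nat k ∉ val X G c) : ∃ p ∈ G, NotIn c k p := by
  rcases dec_mem h (natN_mem hc k) hcX with h1 | h1
  · exact (hk ((nat_mem_val h hc hcX k).2 h1)).elim
  · exact h1

/-- truth for the closed set `CC c m` -/
theorem CC_truth (h : Basic X G) (hc : Clos X) {c : Nm P} (hcX : (Sum.inl c : Obj P) ∈ X) {m : ℕ}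
    (hg : ∀ s, (∃ r ∈ G, KC c m s r) ∨ ∃ q ∈ G, ∀ r ≤ q, ¬ KC c m s r) {z : ℕ → Bool}
    (hz : ∀ t, Init t z → nat (Nat.pair m (Encodable.encode t)) ∈ val X G c) {s : List Bool}
    (hs : Init s z) {r : P} (hr : r ∈ G) : ¬ (CC c m).O s r := by
  intro hO
  rcases hg s with ⟨r', hr', l, hK⟩ | ⟨q, hq, h1⟩
  · rw [init_iff] at hs
    have h2 := seg_prefix (x := z) (Nat.le_add_right s.length l)
    rw [← hs] at h2
    obtain ⟨u, hu⟩ := h2
    have h3 := congrArg List.length hu
    rw [List.length_append, seg_length] at h3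
    obtain ⟨t, ht, hN⟩ := hK u (by omega)
    rw [hu] at ht
    obtain ⟨p', hp', hF⟩ := (nat_mem_val h hc hcX _).1 (hz t ((init_seg z _).pre ht))
    obtain ⟨r'', -, h4, h5⟩ := h.filt.compat hr' hp'
    exact hN r'' h4 (hF.mono h5)
  · obtain ⟨r1, -, h2, h3⟩ := h.filt.compat hr hq
    obtain ⟨r2, h4, h5⟩ := hO r1 h2
    exact h1 r2 (h4.trans h3) h5

end

end Pool.Agent.Helper26.NE
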