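import Pool.Agent.Helper96.Fc.Defs

/-!
# Meagre subgroups and closed null sets in a transitive model (definitions)

`N` is a transitive model of ZFC (a set of `ZFSet`s with the true membership relation). A point
`x : ℕ → Bool` of the Cantor space is represented by the set `st x` of the natural numbers `n` with
`x n = true`. A real number `r` is represented by (the set `ct r` of the codes of the rational
numbers in) its Dedekind cut. Sets of points (of real numbers) in `N` are the elements of `N` whose
elements are of the form `st x` (of the form `ct r`).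
-/

namespace Pool.Agent.Helper26.NE

open Pool.Agent.Helper96.Fc

/-- The natural number `n` as a set. -/
noncomputable def nat (n : ℕ) : ZFSet.{0} := (n : Ordinal.{0}).toZFSet

/-- The set `ω`. -/
noncomputable def om : ZFSet.{0} := Ordinal.toZFSet Ordinal.omega0

/-- In `N`, the set `A` is covered by countably many sets with the property `Q`: there is in `N` a
sequence `F` (a set of pairs `(n, C)`, with at most one `C` for every `n`) of sets `C` with the
property `Q` whose union contains `A`. -/
def Covered (N : Set ZFSet.{0}) (Q : ZFSet.{0} → Prop) (A : ZFSet.{0}) : Prop :=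
  ∃ F ∈ N, (∀ n C D, ZFSet.pair (nat n) C ∈ F → ZFSet.pair (nat n) D ∈ F → C = D) ∧
    (∀ n C, ZFSet.pair (nat n) C ∈ F → Q C) ∧ ∀ z ∈ A, ∃ n C, ZFSet.pair (nat n) C ∈ F ∧ z ∈ C

/-! ### The Cantor group -/

/-- The point `x` of the Cantor space, as a set: the set of the natural numbers `n` with
`x n = true`. -/
noncomputable def st (x : ℕ → Bool) : ZFSet.{0} :=
  ZFSet.sep (fun z => ∃ n, x n = true ∧ z = nat n) om

/-- `A ∈ N` is a set of points of the Cantor space. -/
def Pts (N : Set ZFSet.{0}) (A : ZFSet.{0}) : Prop := A ∈ N ∧ ∀ z ∈ A, ∃ x, z = st x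

/-- The finite sequence `s` is an initial segment of `x`. -/
def Init (s : List Bool) (x : ℕ → Bool) : Prop := ∀ i b, s[i]? = some b → x i = b

/-- The set `C` of points is nowhere dense: every finite sequence `s` has an extension `s ++ t`
that is not an initial segment of a point of `C`. -/
def NWD (C : ZFSet.{0}) : Prop :=
  ∀ s : List Bool, ∃ t : List Bool, ∀ x, st x ∈ C → ¬ Init (s ++ t) x

/-- In `N`, the set `C` of points is closed: every point `x` of `N` that is not in `C` has an
initial segment that is not an initial segment of a point of `C`. -/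
def Closed (N : Set ZFSet.{0}) (C : ZFSet.{0}) : Prop :=
  ∀ x, st x ∈ N → st x ∉ C → ∃ s, Init s x ∧ ∀ y, st y ∈ C → ¬ Init s y

/-- For every `k` the set `C` of points is covered by finitely many basic clopen sets
`{x | s is an initial segment of x}`, `s ∈ S`, whose measures `2 ^ (-n)` have the sum at most
`2 ^ (-k)`. A closed set has this property if and only if it has measure zero. -/
def Null (C : ZFSet.{0}) : Prop :=
  ∀ k : ℕ, ∃ (n : ℕ) (S : Finset (List Bool)), (∀ s ∈ S, s.length = n) ∧
    S.card * 2 ^ k ≤ 2 ^ n ∧ ∀ x, st x ∈ C → ∃ s ∈ S, Init s x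

/-- `G` is in `N` a subgroup of the Cantor group (with the coordinatewise addition modulo 2). -/
def Subgroup (N : Set ZFSet.{0}) (G : ZFSet.{0}) : Prop :=
  Pts N G ∧ st (fun _ => false) ∈ G ∧
    ∀ x y, st x ∈ G → st y ∈ G → st (fun n => xor (x n) (y n)) ∈ G

/-- In `N`, the set `A` of points is meagre. -/
def Meagre (N : Set ZFSet.{0}) (A : ZFSet.{0}) : Prop := Covered N (fun C => Pts N C ∧ NWD C) A

/-- In `N`, the set `A` of points belongs to the ideal `ℰ`: it is covered by countably many closed
sets of measure zero. -/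
def InE (N : Set ZFSet.{0}) (A : ZFSet.{0}) : Prop :=
  Covered N (fun C => Pts N C ∧ Closed N C ∧ Null C) A

/-! ### The real line -/

/-- The real number `r`, as a set: the set of the codes of the rational numbers `q < r`. -/
noncomputable def ct (r : ℝ) : ZFSet.{0} :=
  ZFSet.sep (fun z => ∃ q : ℚ, (q : ℝ) < r ∧ z = nat (Encodable.encode q)) om

/-- `A ∈ N` is a set of real numbers. -/
def PtsR (N : Set ZFSet.{0}) (A : ZFSet.{0}) : Prop := A ∈ N ∧ ∀ z ∈ A, ∃ r, z = ct r

/-- The set `C` of real numbers is nowhere dense. -/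
def NWDR (C : ZFSet.{0}) : Prop :=
  ∀ a b : ℚ, a < b → ∃ a' b' : ℚ, a ≤ a' ∧ a' < b' ∧ b' ≤ b ∧
    ∀ r : ℝ, ct r ∈ C → ¬ ((a' : ℝ) < r ∧ r < b')

/-- In `N`, the set `C` of real numbers is closed. -/
def ClosedR (N : Set ZFSet.{0}) (C : ZFSet.{0}) : Prop :=
  ∀ r : ℝ, ct r ∈ N → ct r ∉ C → ∃ a b : ℚ, (a : ℝ) < r ∧ r < b ∧
    ∀ s : ℝ, ct s ∈ C → ¬ ((a : ℝ) < s ∧ s < b)

/-- For every `k` and `M` the set of the elements of `C` of absolute value at most `M` is covered
by finitely many intervals `(a, b)`, `(a, b) ∈ L`, whose lengths have the sum at most `2 ^ (-k)`.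
A closed set has this property if and only if it has measure zero. -/
def NullR (C : ZFSet.{0}) : Prop :=
  ∀ k M : ℕ, ∃ L : List (ℚ × ℚ), (∀ t ∈ L, t.1 ≤ t.2) ∧
    (L.map fun t => t.2 - t.1).sum * 2 ^ k ≤ 1 ∧
    ∀ r : ℝ, ct r ∈ C → |r| ≤ M → ∃ t ∈ L, (t.1 : ℝ) < r ∧ r < t.2

/-- `G` is in `N` a subgroup of the additive group of the real numbers. -/
def SubgroupR (N : Set ZFSet.{0}) (G : ZFSet.{0}) : Prop :=
  PtsR N G ∧ ct 0 ∈ G ∧ ∀ r s, ct r ∈ G → ct s ∈ G → ct (r - s) ∈ G

/-- In `N`, the set `A` of real numbers is meagre. -/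
def MeagreR (N : Set ZFSet.{0}) (A : ZFSet.{0}) : Prop :=
  Covered N (fun C => PtsR N C ∧ NWDR C) A

/-- In `N`, the set `A` of real numbers belongs to the ideal `ℰ`: it is covered by countably many
closed sets of measure zero. -/
def InER (N : Set ZFSet.{0}) (A : ZFSet.{0}) : Prop :=
  Covered N (fun C => PtsR N C ∧ ClosedR N C ∧ NullR C) A

/-- The conclusion: a countable transitive model of ZFC in which every meagre subgroup of the
Cantor group and every meagre subgroup of the real line belongs to `ℰ`. -/
def Statement : Prop :=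
  ∃ N : Set ZFSet.{0}, N.Countable ∧ IsZFC N ∧ (∀ G, Subgroup N G → Meagre N G → InE N G) ∧
    ∀ G, SubgroupR N G → MeagreR N G → InER N G

end Pool.Agent.Helper26.NE
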