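import Pool.Agent.Helper26.NE.Basic

/-!
# Definability in the model: codes of sequences of sets, sequences of sets with given codes
-/

open Ordinal

set_option linter.unusedSectionVars false

namespace Pool.Agent.Helper26.NE

open Pool.Agent.Helper96.Fc
open Pool.Agent.Helper89.FV (Dfb cns cns_mem pair_mem_iff)

/-- the binary relation `R` on `ℕ` belongs to `N` -/
def T2 (N : Set ZFSet.{0}) (R : ℕ → ℕ → Prop) : Prop :=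
  ∃ T ∈ N, ∀ z, z ∈ T ↔ ∃ k l, R k l ∧ z = ZFSet.pair (nat k) (nat l)

theorem T2_pair {R : ℕ → ℕ → Prop} {T : ZFSet.{0}}
    (hT : ∀ z, z ∈ T ↔ ∃ k l, R k l ∧ z = ZFSet.pair (nat k) (nat l)) {k l : ℕ} :
    ZFSet.pair (nat k) (nat l) ∈ T ↔ R k l := by
  rw [hT]
  constructor
  · rintro ⟨k', l', h, he⟩
    rw [ZFSet.pair_inj] at he
    rw [nat_inj he.1, nat_inj he.2]
    exact h
  · exact fun h => ⟨k, l, h, rfl⟩

/-- the basic set number `k` contains the point `x` -/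
def Bs (R1 R2 : ℕ → ℕ → Prop) (k : ℕ) (x : Set ℕ) : Prop :=
  (∀ i, R1 k i → i ∈ x) ∧ ∀ i, R2 k i → i ∉ x

/-- the formula for `Bs` -/
def BsZ (T1 T2 o k x : ZFSet.{0}) : Prop :=
  (∀ i ∈ o, ZFSet.pair k i ∈ T1 → i ∈ x) ∧ ∀ i ∈ o, ZFSet.pair k i ∈ T2 → ¬ i ∈ x

theorem BsZ_iff {R1 R2 : ℕ → ℕ → Prop} {U1 U2 : ZFSet.{0}}
    (h1 : ∀ z, z ∈ U1 ↔ ∃ k l, R1 k l ∧ z = ZFSet.pair (nat k) (nat l))
    (h2 : ∀ z, z ∈ U2 ↔ ∃ k l, R2 k l ∧ z = ZFSet.pair (nat k) (nat l)) {k : ℕ} {x : Set ℕ} :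
    BsZ U1 U2 om (nat k) (zs x) ↔ Bs R1 R2 k x := by
  constructor
  · rintro ⟨g1, g2⟩
    refine ⟨fun i hi => ?_, fun i hi => ?_⟩
    · exact nat_mem_zs.1 (g1 _ (nat_mem_om i) ((T2_pair h1).2 hi))
    · exact fun h => g2 _ (nat_mem_om i) ((T2_pair h2).2 hi) (nat_mem_zs.2 h)
  · rintro ⟨g1, g2⟩
    refine ⟨fun i hi h => ?_, fun i hi h => ?_⟩
    · obtain ⟨n, rfl⟩ := mem_om.1 hi
      exact nat_mem_zs.2 (g1 n ((T2_pair h1).1 h))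
    · obtain ⟨n, rfl⟩ := mem_om.1 hi
      exact fun h' => g2 n ((T2_pair h2).1 h) (nat_mem_zs.1 h')

theorem Dfb_Bs {N : Set ZFSet.{0}} (hN : IsZFC N) (a b o k x : ℕ) :
    Dfb N (fun v => BsZ (v a) (v b) (v o) (v k) (v x)) :=
  .and (.allB hN o (.imp (.pair_mem hN (k + 1) 0 (a + 1)) (.mem 0 (x + 1))))
    (.allB hN o (.imp (.pair_mem hN (k + 1) 0 (b + 1)) (.neg (.mem 0 (x + 1)))))

theorem om_mem {N : Set ZFSet.{0}} (hN : IsZFC N) : om ∈ N := Helper89.FV.om_mem hN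

theorem nat_mem {N : Set ZFSet.{0}} (hN : IsZFC N) (n : ℕ) : nat n ∈ N := Helper89.FV.nat_mem hN n

/-- **Codes of sequences of sets.** -/
theorem exists_code {N : Set ZFSet.{0}} (hN : IsZFC N) {RF R1 R2 : ℕ → ℕ → Prop} (hF : T2 N RF)
    (h1 : T2 N R1) (h2 : T2 N R2) {F : ZFSet.{0}} (hFN : F ∈ N) :
    ∃ c : Set ℕ, zs c ∈ N ∧ ∀ k, k ∈ c ↔ ∃ n C x, RF k n ∧ ZFSet.pair (nat n) C ∈ F ∧
      zs x ∈ C ∧ Bs R1 R2 k x := by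
  obtain ⟨TF, hTF, hTF'⟩ := hF
  obtain ⟨U1, hU1, hU1'⟩ := h1
  obtain ⟨U2, hU2, hU2'⟩ := h2
  have hom := om_mem hN
  obtain ⟨b, hb, h⟩ := (Dfb.and (.mem 0 5) (.exB hN 5 (.ex (.exB hN 0
    (.and (.pair_mem hN 3 2 5) (.and (.pair_mem hN 2 1 4) (.and (.allB hN 0 (.mem 0 9))
      (Dfb_Bs hN 6 7 8 3 0)))))))).sep hN
    (v := cns F (cns TF (cns U1 (cns U2 (fun _ => om)))))
    (cns_mem hFN (cns_mem hTF (cns_mem hU1 (cns_mem hU2 fun _ => hom)))) (a := om) hom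
  have h' : ∀ z, z ∈ b ↔ z ∈ om ∧ z ∈ om ∧ ∃ n ∈ om, ∃ C ∈ N, ∃ x ∈ C, ZFSet.pair z n ∈ TF ∧
      ZFSet.pair n C ∈ F ∧ (∀ i ∈ x, i ∈ om) ∧ BsZ U1 U2 om z x := h
  refine ⟨{k | nat k ∈ b}, ?_, ?_⟩
  · have : zs {k | nat k ∈ b} = b := by
      ext z
      rw [mem_zs]
      constructor
      · rintro ⟨n, hn, rfl⟩; exact hn
      · intro hz
        obtain ⟨n, rfl⟩ := mem_om.1 ((h' z).1 hz).1
        exact ⟨n, hz, rfl⟩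
    rwa [this]
  · intro k
    show nat k ∈ b ↔ _
    rw [h']
    constructor
    · rintro ⟨-, -, n, hn, C, hC, x, hx, g1, g2, g3, g4⟩
      obtain ⟨n, rfl⟩ := mem_om.1 hn
      obtain ⟨y, rfl⟩ := exists_zs (z := x) g3
      exact ⟨n, C, y, (T2_pair hTF').1 g1, g2, hx, (BsZ_iff hU1' hU2').1 g4⟩
    · rintro ⟨n, C, x, g1, g2, g3, g4⟩
      have hCN : C ∈ N := ((pair_mem_iff hN).1 (hN.trans _ hFN _ g2)).2
      exact ⟨nat_mem_om k, nat_mem_om k, nat n, nat_mem_om n, C, hCN, zs x, g3,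
        (T2_pair hTF').2 g1, g2, fun i hi => zs_subset x hi, (BsZ_iff hU1' hU2').2 g4⟩

/-- **Reals computed from a real.** -/
theorem exists_real {N : Set ZFSet.{0}} (hN : IsZFC N) {RW R1 R2 : ℕ → ℕ → Prop} (hW : T2 N RW)
    (h1 : T2 N R1) (h2 : T2 N R2) {x : Set ℕ} (hx : zs x ∈ N) :
    zs {n | ∃ k, RW n k ∧ Bs R1 R2 k x} ∈ N := by
  obtain ⟨TW, hTW, hTW'⟩ := hW
  obtain ⟨U1, hU1, hU1'⟩ := h1
  obtain ⟨U2, hU2, hU2'⟩ := h2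
  have hom := om_mem hN
  obtain ⟨b, hb, h⟩ := (Dfb.exB hN 5 (.and (.pair_mem hN 1 0 3)
    (Dfb_Bs hN 4 5 6 0 2))).sep hN
    (v := cns (zs x) (cns TW (cns U1 (cns U2 (fun _ => om)))))
    (cns_mem hx (cns_mem hTW (cns_mem hU1 (cns_mem hU2 fun _ => hom)))) (a := om) hom
  have h' : ∀ z, z ∈ b ↔ z ∈ om ∧ ∃ k ∈ om, ZFSet.pair z k ∈ TW ∧ BsZ U1 U2 om k (zs x) := h
  have : zs {n | ∃ k, RW n k ∧ Bs R1 R2 k x} = b := by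
    ext z
    rw [mem_zs, h']
    constructor
    · rintro ⟨n, ⟨k, g1, g2⟩, rfl⟩
      exact ⟨nat_mem_om n, nat k, nat_mem_om k, (T2_pair hTW').2 g1, (BsZ_iff hU1' hU2').2 g2⟩
    · rintro ⟨hz, k, hk, g1, g2⟩
      obtain ⟨n, rfl⟩ := mem_om.1 hz
      obtain ⟨k, rfl⟩ := mem_om.1 hk
      exact ⟨n, ⟨k, (T2_pair hTW').1 g1, (BsZ_iff hU1' hU2').1 g2⟩, rfl⟩
  rwa [this]

/-- `x` is outside all basic sets `k ∈ e` with `RF k j` -/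
def PhZ (TF T1 T2 o e j x : ZFSet.{0}) : Prop :=
  ∀ k ∈ e, ZFSet.pair k j ∈ TF → ¬ BsZ T1 T2 o k x

theorem Dfb_Ph {N : Set ZFSet.{0}} (hN : IsZFC N) (f a b o e j x : ℕ) :
    Dfb N (fun v => PhZ (v f) (v a) (v b) (v o) (v e) (v j) (v x)) :=
  .allB hN e (.imp (.pair_mem hN 0 (j + 1) (f + 1))
    (.neg (Dfb_Bs hN (a + 1) (b + 1) (o + 1) 0 (x + 1))))

/-- **Sequences of closed sets with a given code.** -/
theorem exists_sets {N : Set ZFSet.{0}} (hN : IsZFC N) {RF R1 R2 : ℕ → ℕ → Prop} (hF : T2 N RF)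
    (h1 : T2 N R1) (h2 : T2 N R2) {e : Set ℕ} (he : zs e ∈ N) {S : ZFSet.{0}} (hS : S ∈ N)
    (hS' : ∀ z ∈ S, z ⊆ om) :
    ∃ F ∈ N, (∀ n C D, ZFSet.pair (nat n) C ∈ F → ZFSet.pair (nat n) D ∈ F → C = D) ∧
      (∀ n, ∃ C, ZFSet.pair (nat n) C ∈ F) ∧ ∀ j C, ZFSet.pair (nat j) C ∈ F → C ∈ N ∧
        (∀ z ∈ C, z ∈ S) ∧ ∀ x, zs x ∈ C ↔ zs x ∈ S ∧ ∀ k ∈ e, RF k j → ¬ Bs R1 R2 k x := by
  obtain ⟨TF, hTF, hTF'⟩ := hF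
  obtain ⟨U1, hU1, hU1'⟩ := h1
  obtain ⟨U2, hU2, hU2'⟩ := h2
  have hom := om_mem hN
  obtain ⟨PS, hPS, hPS'⟩ := Helper89.FV.exists_powerset hN hS
  obtain ⟨Q, hQ, hQ'⟩ := Helper89.FV.exists_prod hN hom hPS
  have hph : ∀ j x, PhZ TF U1 U2 om (zs e) (nat j) (zs x) ↔
      ∀ k ∈ e, RF k j → ¬ Bs R1 R2 k x := by
    intro j x
    constructor
    · intro h k hk hkj hB
      exact h _ (nat_mem_zs.2 hk) ((T2_pair hTF').2 hkj) ((BsZ_iff hU1' hU2').2 hB)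
    · intro h k hk hkj hB
      obtain ⟨m, hm, rfl⟩ := mem_zs.1 hk
      exact h m hm ((T2_pair hTF').1 hkj) ((BsZ_iff hU1' hU2').1 hB)
  -- the sequence
  obtain ⟨F, hF, h⟩ := (Dfb.exB hN 5 (.exB hN 7 (.and (.pair hN 2 1 0) (.allB hN 9
    (.iff (.mem 0 1) (Dfb_Ph hN 5 6 7 8 4 2 0)))))).sep hN
    (v := cns (zs e) (cns TF (cns U1 (cns U2 (cns om (cns PS (fun _ => S)))))))
    (cns_mem he (cns_mem hTF (cns_mem hU1 (cns_mem hU2 (cns_mem hom (cns_mem hPS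
      fun _ => hS)))))) (a := Q) hQ
  have h' : ∀ z, z ∈ F ↔ z ∈ Q ∧ ∃ n ∈ om, ∃ C ∈ PS, z = ZFSet.pair n C ∧
      ∀ x ∈ S, x ∈ C ↔ PhZ TF U1 U2 om (zs e) n x := h
  have hmem : ∀ j C, ZFSet.pair (nat j) C ∈ F → C ∈ N ∧ (∀ z ∈ C, z ∈ S) ∧
        ∀ x, zs x ∈ C ↔ zs x ∈ S ∧ ∀ k ∈ e, RF k j → ¬ Bs R1 R2 k x := by
    intro j C hj
    obtain ⟨-, n, -, C', hC', g1, g2⟩ := (h' _).1 hj
    rw [ZFSet.pair_inj] at g1
    obtain ⟨rfl, rfl⟩ := g1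
    obtain ⟨g3, g4⟩ := (hPS' C).1 hC'
    refine ⟨g3, fun z hz => g4 hz, fun x => ?_⟩
    constructor
    · intro hx
      have hxS := g4 hx
      exact ⟨hxS, (hph j x).1 ((g2 _ hxS).1 hx)⟩
    · rintro ⟨g5, g6⟩
      exact (g2 _ g5).2 ((hph j x).2 g6)
  refine ⟨F, hF, ?_, ?_, hmem⟩
  · intro n C D hC hD
    obtain ⟨-, -, hC2⟩ := hmem n C hC
    obtain ⟨-, -, hD2⟩ := hmem n D hD
    have hsub : ∀ C', ZFSet.pair (nat n) C' ∈ F → ∀ z ∈ C', z ⊆ om := by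
      intro C' hC' z hz
      obtain ⟨-, m, -, C'', hC'', g1, -⟩ := (h' _).1 hC'
      rw [ZFSet.pair_inj] at g1
      obtain ⟨-, rfl⟩ := g1
      exact hS' z (((hPS' C').1 hC'').2 hz)
    ext z
    constructor
    · intro hz
      obtain ⟨x, rfl⟩ := exists_zs (hsub C hC z hz)
      exact (hD2 x).2 ((hC2 x).1 hz)
    · intro hz
      obtain ⟨x, rfl⟩ := exists_zs (hsub D hD z hz)
      exact (hC2 x).2 ((hD2 x).1 hz)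
  · intro n
    obtain ⟨C, hC, h3⟩ := (Dfb_Ph hN 2 3 4 5 1 6 0).sep hN
      (v := cns (zs e) (cns TF (cns U1 (cns U2 (cns om (fun _ => nat n))))))
      (cns_mem he (cns_mem hTF (cns_mem hU1 (cns_mem hU2 (cns_mem hom
        fun _ => nat_mem hN n))))) (a := S) hS
    have h3' : ∀ z, z ∈ C ↔ z ∈ S ∧ PhZ TF U1 U2 om (zs e) (nat n) z := h3
    have hCS : C ⊆ S := fun z hz => ((h3' z).1 hz).1
    refine ⟨C, (h' _).2 ⟨(hQ' _).2 ⟨nat n, nat_mem_om n, C, (hPS' C).2 ⟨hC, hCS⟩, rfl⟩,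
      nat n, nat_mem_om n, C, (hPS' C).2 ⟨hC, hCS⟩, rfl, fun x hx => ?_⟩⟩
    rw [h3']
    exact ⟨fun h => h.2, fun h => ⟨hx, h⟩⟩

end Pool.Agent.Helper26.NE
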