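import Pool.Agent.Helper26.NE.RealC

/-!
# The code of the closed null sets of real numbers obtained from the code of closed null sets of
points of the Cantor space
-/

open Ordinal

set_option linter.unusedSectionVars false

namespace Pool.Agent.Helper26.NE

open Pool.Agent.Helper96.Fc
open Pool.Agent.Helper34.SG (bv bits NbR)
open Pool.Agent.Helper89.FV (Dfb cns cns_mem)

/-- images of sets of natural numbers under relations in `N` -/
theorem pre_mem {N : Set ZFSet.{0}} (hN : IsZFC N) {R : ℕ → ℕ → Prop} (hR : T2 N R) {x : Set ℕ}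
    (hx : zs x ∈ N) : zs {n | ∃ k ∈ x, R n k} ∈ N := by
  obtain ⟨T, hT, hT'⟩ := hR
  have hom := om_mem hN
  obtain ⟨b, hb, h⟩ := (Dfb.exB hN 1 (.pair_mem hN 1 0 3)).sep hN
    (v := cns (zs x) (fun _ => T)) (cns_mem hx fun _ => hT) (a := om) hom
  have h' : ∀ z, z ∈ b ↔ z ∈ om ∧ ∃ k ∈ zs x, ZFSet.pair z k ∈ T := h
  have : zs {n | ∃ k ∈ x, R n k} = b := by
    ext z
    rw [mem_zs, h']
    constructor
    · rintro ⟨n, ⟨k, g1, g2⟩, rfl⟩
      exact ⟨nat_mem_om n, nat k, nat_mem_zs.2 g1, (T2_pair hT').2 g2⟩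
    · rintro ⟨hz, k, hk, g1⟩
      obtain ⟨n, rfl⟩ := mem_om.1 hz
      obtain ⟨k, hk', rfl⟩ := mem_zs.1 hk
      exact ⟨n, ⟨k, hk', (T2_pair hT').1 g1⟩, rfl⟩
  rwa [this]

theorem compl_mem {N : Set ZFSet.{0}} (hN : IsZFC N) {x : Set ℕ} (hx : zs x ∈ N) :
    zs xᶜ ∈ N := by
  have hom := om_mem hN
  obtain ⟨b, hb, h⟩ := (Dfb.neg (.mem 0 1)).sep hN
    (v := (fun _ => zs x)) (fun _ => hx) (a := om) hom
  have h' : ∀ z, z ∈ b ↔ z ∈ om ∧ ¬ z ∈ zs x := h
  have : zs xᶜ = b := by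
    ext z
    rw [mem_zs, h']
    constructor
    · rintro ⟨n, hn, rfl⟩
      exact ⟨nat_mem_om n, fun h => hn (nat_mem_zs.1 h)⟩
    · rintro ⟨hz, hn⟩
      obtain ⟨n, rfl⟩ := mem_om.1 hz
      exact ⟨n, fun h => hn (nat_mem_zs.2 h), rfl⟩
  rwa [this]

/-- the interval of `s` is away from `[a, b]` -/
def Away (i : ℤ) (l : ℕ) (s : List Bool) (a b : ℚ) : Prop := hi i s < a ∨ b + (1 / 2) ^ l < lo i s

/-- an initial segment of `s` is killed by the code `e` of the closed set number `j` -/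
def Kil (e : Set ℕ) (j : ℕ) (s : List Bool) : Prop :=
  ∃ t, t <+: s ∧ Nat.pair j (Encodable.encode t) ∈ e

/-- a witness that `(a, b]` contains no point of the closed set number `n` -/
def Wt (e : Set ℕ) (n : ℕ) (a b : ℚ) : Prop :=
  ∃ l : ℕ, ∀ s : List Bool, s.length = l → ∀ (j : ℕ) (i : ℤ),
    n = Nat.pair j (Encodable.encode i) → Away i l s a b ∨ Kil e j s

/-- tables -/
def RE1 (k k' : ℕ) : Prop := ∃ (j : ℕ) (s t : List Bool), t <+: s ∧
  k = Nat.pair j (Encodable.encode s) ∧ k' = Nat.pair j (Encodable.encode t)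

/-- tables -/
def RE2 (k k' : ℕ) : Prop := ∃ (l j : ℕ) (i : ℤ) (a b : ℚ) (s : List Bool), s.length = l ∧
  ¬ Away i l s a b ∧ k = Nat.pair (Nat.pair (Nat.pair j (Encodable.encode i))
    (Encodable.encode (a, b))) l ∧ k' = Nat.pair j (Encodable.encode s)

/-- tables -/
def RE3 (n k : ℕ) : Prop := ∃ l, k = Nat.pair n l

/-- the code -/
def eR (e : Set ℕ) : Set ℕ :=
  {n | ∃ k ∈ ({k | ∃ k' ∈ ({k | ∃ k' ∈ e, RE1 k k'} : Set ℕ)ᶜ, RE2 k k'} : Set ℕ)ᶜ, RE3 n k}

theorem eR_mem {N : Set ZFSet.{0}} (hN : IsZFC N) (h1 : T2 N RE1) (h2 : T2 N RE2)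
    (h3 : T2 N RE3) {e : Set ℕ} (he : zs e ∈ N) : zs (eR e) ∈ N :=
  pre_mem hN h3 (compl_mem hN (pre_mem hN h2 (compl_mem hN (pre_mem hN h1 he))))

theorem Kil_iff {e : Set ℕ} {j : ℕ} {s : List Bool} :
    Kil e j s ↔ ∃ k' ∈ e, RE1 (Nat.pair j (Encodable.encode s)) k' := by
  constructor
  · rintro ⟨t, ht, h⟩
    exact ⟨_, h, j, s, t, ht, rfl, rfl⟩
  · rintro ⟨k', hk', j', s', t, ht, h1, rfl⟩
    obtain ⟨rfl, rfl⟩ := pair_inj' h1
    exact ⟨t, ht, hk'⟩

theorem mem_eR {e : Set ℕ} {n : ℕ} {a b : ℚ} :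
    Nat.pair n (Encodable.encode ((a, b) : ℚ × ℚ)) ∈ eR e ↔ Wt e n a b := by
  constructor
  · rintro ⟨_, hk, l, rfl⟩
    refine ⟨l, fun s hs j i hn => ?_⟩
    by_contra hcon
    push Not at hcon
    subst hn
    refine hk ⟨Nat.pair j (Encodable.encode s), fun h => hcon.2 (Kil_iff.2 h), l, j, i, a, b, s,
      hs, hcon.1, rfl, rfl⟩
  · rintro ⟨l, h⟩
    refine ⟨_, ?_, l, rfl⟩
    rintro ⟨k', hk', l', j, i, a', b', s, hs, hA, h1, rfl⟩
    rw [Nat.pair_eq_pair] at h1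
    obtain ⟨h1, rfl⟩ := h1
    rw [Nat.pair_eq_pair] at h1
    obtain ⟨h1, h2⟩ := h1
    have h3 := Encodable.encode_injective h2
    obtain ⟨rfl, rfl⟩ := Prod.mk.inj h3
    rcases h s hs j i h1 with h4 | h4
    · exact hA h4
    · exact hk' (Kil_iff.1 h4)

theorem Kil.mono {e : Set ℕ} {j : ℕ} {s t : List Bool} (h : Kil e j s) (hst : s <+: t) :
    Kil e j t := by
  obtain ⟨u, hu, h1⟩ := h
  exact ⟨u, hu.trans hst, h1⟩

theorem exists_snoc {s : List Bool} {l : ℕ} (h : s.length = l + 1) :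
    s.dropLast.length = l ∧ s.dropLast <+: s :=
  ⟨by simp [h], List.dropLast_prefix s⟩

/-- the witnessed set is open on the right -/
theorem Wt.right {e : Set ℕ} {n : ℕ} {a b : ℚ} (h : Wt e n a b) : ∃ b' > b, Wt e n a b' := by
  obtain ⟨l, hl⟩ := h
  refine ⟨b + (1 / 2) ^ (l + 1), by have : (0 : ℚ) < (1 / 2) ^ (l + 1) := by positivity
                                    linarith, l + 1, fun s hs j i hn => ?_⟩
  obtain ⟨h1, h2⟩ := exists_snoc hs
  rcases hl _ h1 j i hn with (h3 | h3) | h3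
  · exact Or.inl (Or.inl ((le_hi i h2).trans_lt h3))
  · refine Or.inl (Or.inr ?_)
    have h4 := h3.trans_le (lo_le i h2)
    have h5 : b + (1 / 2) ^ (l + 1) + (1 / 2) ^ (l + 1) = b + (1 / 2) ^ l := by
      rw [pow_succ]; ring
    rw [h5]
    exact h4
  · exact Or.inr (h3.mono h2)

/-- the points `x` with `i + x ∈ (a, b]` are killed -/
theorem Wt.kil {e : Set ℕ} {j : ℕ} {i : ℤ} {a b : ℚ}
    (h : Wt e (Nat.pair j (Encodable.encode i)) a b) {x : ℕ → Bool} {r : ℝ} (hr : Rep i x r)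
    (ha : a < r) (hb : r ≤ b) : ∃ t, Init t x ∧ Nat.pair j (Encodable.encode t) ∈ e := by
  obtain ⟨l, hl⟩ := h
  rcases hl (seg x l) (seg_length x l) j i rfl with (h3 | h3) | ⟨t, ht, h3⟩
  · exfalso
    have h4 := (hr l).2
    have h5 : ((hi i (seg x l) : ℚ) : ℝ) < a := by exact_mod_cast h3
    linarith
  · exfalso
    have h4 := (hr l).1
    have h5 : (b : ℝ) + (1 / 2) ^ l < (lo i (seg x l) : ℚ) := by
      have := Rat.cast_lt (K := ℝ).2 h3
      push_cast at this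
      exact this
    have h6 : (0 : ℝ) < (1 / 2) ^ l := by positivity
    linarith
  · exact ⟨t, (init_seg x l).pre ht, h3⟩

/-- the set with the code `eR e` is null -/
theorem null_eR {e : Set ℕ} {j : ℕ} {i : ℤ} {m k : ℕ} {T : Finset (List Bool)}
    (hcard : T.card * 2 ^ (k + 2) ≤ 2 ^ m)
    (hT : ∀ s : List Bool, s.length = m → s ∉ T → Nat.pair j (Encodable.encode s) ∈ e) :
    ∃ L : List (ℚ × ℚ), (∀ t ∈ L, t.1 ≤ t.2) ∧ (L.map fun t => t.2 - t.1).sum * 2 ^ k ≤ 1 ∧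
      ∀ r : ℝ, (∀ a b : ℚ, Wt e (Nat.pair j (Encodable.encode i)) a b → ¬ ((a : ℝ) < r ∧ r ≤ b)) →
        ∃ t ∈ L, (t.1 : ℝ) < r ∧ r < t.2 := by
  classical
  -- only the members of the length `m` matter
  let T' := T.filter (fun s => s.length = m)
  have hT'card : T'.card ≤ T.card := Finset.card_filter_le _ _
  refine ⟨T'.toList.map fun s => (lo i s - 1 / 2 ^ m, hi i s + 1 / 2 ^ m), ?_, ?_, ?_⟩
  · intro t ht
    obtain ⟨s, -, rfl⟩ := List.mem_map.1 ht
    have h1 := lo_lt_hi i s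
    have h2 : (0 : ℚ) < 1 / 2 ^ m := by positivity
    show lo i s - 1 / 2 ^ m ≤ hi i s + 1 / 2 ^ m
    linarith
  · rw [List.map_map]
    have h1 : ∀ s ∈ T'.toList, ((fun t : ℚ × ℚ => t.2 - t.1) ∘
        fun s => (lo i s - 1 / 2 ^ m, hi i s + 1 / 2 ^ m)) s = 3 / 2 ^ m := by
      intro s hs
      have hs' : s.length = m := (Finset.mem_filter.1 (Finset.mem_toList.1 hs)).2
      show hi i s + 1 / 2 ^ m - (lo i s - 1 / 2 ^ m) = 3 / 2 ^ m
      rw [hi_eq, hs']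
      ring
    have h5 : ((T'.toList.map ((fun t : ℚ × ℚ => t.2 - t.1) ∘
        fun s => (lo i s - 1 / 2 ^ m, hi i s + 1 / 2 ^ m))).sum) = T'.card * (3 / 2 ^ m) := by
      rw [List.map_congr_left h1, List.map_const', List.sum_replicate, Finset.length_toList]
      simp
    rw [h5]
    have h2 : ((T'.card : ℚ) * 2 ^ (k + 2)) ≤ 2 ^ m := by
      have : T'.card * 2 ^ (k + 2) ≤ 2 ^ m := (Nat.mul_le_mul_right _ hT'card).trans hcard
      exact_mod_cast this
    have h3 : (T'.card : ℚ) * (3 / 2 ^ m) * 2 ^ k = (T'.card * 3 * 2 ^ k) / 2 ^ m := by ring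
    rw [h3, div_le_one (by positivity)]
    rw [pow_add] at h2
    have h4 : (0 : ℚ) ≤ T'.card * 2 ^ k := by positivity
    nlinarith
  · intro r hr
    by_contra hcon
    push Not at hcon
    have hcon' : ∀ s : List Bool, s.length = m → s ∈ T →
        r ≤ lo i s - 1 / 2 ^ m ∨ hi i s + 1 / 2 ^ m ≤ r := by
      intro s hs hsT
      have h1 := hcon _ (List.mem_map.2 ⟨s, Finset.mem_toList.2 (Finset.mem_filter.2 ⟨hsT, hs⟩),
        rfl⟩)
      push_cast at h1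
      by_cases h2 : (lo i s : ℝ) - 1 / 2 ^ m < r
      · exact Or.inr (h1 h2)
      · exact Or.inl (not_lt.1 h2)
    have hpos : (0 : ℝ) < 1 / 2 ^ m := by positivity
    obtain ⟨a, ha1, ha2⟩ := exists_rat_btwn (show r - 1 / 2 ^ m < r by linarith)
    obtain ⟨b, hb1, hb2⟩ := exists_rat_btwn (show r < r + (1 / 2) ^ (m + 1) by
      have : (0 : ℝ) < (1 / 2) ^ (m + 1) := by positivity
      linarith)
    refine hr a b ⟨m + 1, fun s hs j' i' hn => ?_⟩ ⟨ha2, hb1.le⟩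
    obtain ⟨rfl, hi'⟩ := Nat.pair_eq_pair.1 hn
    obtain rfl := Encodable.encode_injective hi'
    obtain ⟨h1, h2⟩ := exists_snoc hs
    by_cases hsT : s.dropLast ∈ T
    · rcases hcon' _ h1 hsT with h3 | h3
      · refine Or.inl (Or.inr ?_)
        have h4 : lo i s.dropLast ≤ lo i s := lo_le i h2
        have h4' : (lo i s.dropLast : ℝ) ≤ lo i s := by exact_mod_cast h4
        have h5 : (1 / 2 : ℝ) ^ (m + 1) + (1 / 2) ^ (m + 1) = 1 / 2 ^ m := by
          rw [pow_succ, div_pow, one_pow]; ring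
        have h6 : (b : ℝ) + (1 / 2) ^ (m + 1) < lo i s := by linarith
        refine Rat.cast_lt (K := ℝ).1 ?_
        push_cast
        exact h6
      · refine Or.inl (Or.inl ?_)
        have h4 : hi i s ≤ hi i s.dropLast := le_hi i h2
        have h4' : (hi i s : ℝ) ≤ hi i s.dropLast := by exact_mod_cast h4
        have h6 : (hi i s : ℝ) < a := by linarith
        exact_mod_cast h6
    · exact Or.inr ⟨_, h2, hT _ h1 hsT⟩

end Pool.Agent.Helper26.NE
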