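import Pool.Agent.Helper26.NE.Line

/-!
# The countable transitive model
-/

open Ordinal

set_option linter.unusedSectionVars false

namespace Pool.Agent.Helper26.NE

open Pool.Agent.Helper96.Fc

variable {P : Type} [PartialOrder P] [OrderTop P]

/-- the tables -/
noncomputable def TT : ℕ → ℕ → ℕ → Prop
  | 0 => RF
  | 1 => R1
  | 2 => R2
  | 3 => QF
  | 4 => Q1
  | 5 => Q2
  | 6 => QL
  | 7 => RE1
  | 8 => RE2
  | 9 => RE3
  | n + 10 => RD (Iz n)

/-- the systems -/
noncomputable def SS (P : Type) [PartialOrder P] [OrderTop P] : ℕ → Sys P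
  | 0 => SC P
  | _ + 1 => SR P

/-- **The model.** -/
theorem statement_of_side {A : Type} {E : A → ℕ → P → Prop} (hS : Side P E) : Statement := by
  obtain ⟨X, G, hX, -, h⟩ := exists_GP (SS P) TT hS.null (⊤ : P)
  have hb := h.basic
  have hc := h.clos
  have hT : ∀ i, T2 (Mod X G) (TT i) := fun i => T2_mod hb hc (h.tab i)
  refine ⟨Mod X G, Mod_countable hX, Mod.isZFC hb hc, ?_, ?_⟩
  · intro 𝒢 hG hM
    exact cantor_side hS h (b := 0) rfl (hT 0) (hT 1) (hT 2) hG hM
  · intro 𝒢 hG hM
    refine real_side hS h (b := 1) rfl (hT 3) (hT 4) (hT 5) (hT 6) ?_ (hT 7) (hT 8) (hT 9) hG hM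
    intro i
    have := hT (Encodable.encode i + 10)
    simp only [TT, Iz_encode] at this
    exact this

end Pool.Agent.Helper26.NE
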