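import Pool.Agent.Helper26.NE.Basic

/-!
# Names of points, their evaluation
-/

open Ordinal

set_option linter.unusedSectionVars false

namespace Pool.Agent.Helper26.NE

open Pool.Agent.Helper96.Fc

variable {P : Type} [PartialOrder P] [OrderTop P]

/-- Good pairs closed under given total operations, generic for given relations. -/
theorem exists_pair (Op : List (Obj P) → ℕ → Obj P) (R : ℕ → P → List (Obj P) → Prop) (p₀ : P) :
    ∃ (X : Set (Obj P)) (G : Set P), X.Countable ∧ p₀ ∈ G ∧ Basic X G ∧ Clos X ∧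
      (∀ l, (∀ a ∈ l, a ∈ X) → ∀ n, Op l n ∈ X) ∧ ∀ k, GenR X G (R k) := by
  obtain ⟨X, G, h1, h2, h3, h4, h5, h6⟩ := exists_good R (fun n l y => y = Op l n)
    (fun k l y z hy hz => hy.trans hz.symm) p₀
  exact ⟨X, G, h1, h2, h3, h4, fun l hl n => h6 n l _ hl rfl, h5⟩

section

variable {X : Set (Obj P)} {G : Set P}

theorem natN_mem (hc : Clos X) (n : ℕ) : (Sum.inl (ordN P (n : Ordinal.{0})) : Obj P) ∈ X := by
  induction n with
  | zero => simpa using hc.zero
  | succ n ih =>
    have := hc.succ _ ih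
    rwa [← Nat.cast_succ] at this

theorem val_natN (h : Basic X G) (hc : Clos X) (n : ℕ) :
    val X G (ordN P (n : Ordinal.{0})) = nat n := by
  induction n with
  | zero =>
    rw [Nat.cast_zero, val_ordN_zero h.filt, nat_zero]
  | succ n ih =>
    rw [Nat.cast_succ, val_ordN_succ h.filt (natN_mem hc n), ih, nat_succ]

end

/-- the name of a set of natural numbers; `ρ n p`: `p` is one of the conditions of `n` -/
noncomputable def nmS (ρ : ℕ → P → Prop) : Nm P :=
  Nm.mk {t : ℕ × P // ρ t.1 t.2} (fun t => ordN P (t.1.1 : Ordinal.{0})) (fun t => t.1.2)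

theorem nmS_inj {ρ ρ' : ℕ → P → Prop} (h : nmS ρ = nmS ρ') : ρ = ρ' := by
  have key : ∀ (σ : ℕ → P → Prop) (n : ℕ) (p : P), σ n p ↔
      ∃ i, (nmS σ).fn i = ordN P (n : Ordinal.{0}) ∧ (nmS σ).cd i = p := by
    intro σ n p
    constructor
    · intro hσ
      exact ⟨⟨(n, p), hσ⟩, rfl, rfl⟩
    · rintro ⟨⟨⟨m, q⟩, hσ⟩, h1, h2⟩
      have h1 : ordN P (m : Ordinal.{0}) = ordN P (n : Ordinal.{0}) := h1
      have h2 : q = p := h2
      have h3 : m = n := by exact_mod_cast ordN_inj' h1
      rw [← h2, ← h3]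
      exact hσ
  funext n p
  apply propext
  rw [key ρ, key ρ', h]

theorem val_nmS {X : Set (Obj P)} {G : Set P} (h : Basic X G) (hc : Clos X) (ρ : ℕ → P → Prop) :
    val X G (nmS ρ) = zs {n | ∃ p ∈ G, ρ n p} := by
  ext z
  rw [mem_val, mem_zs]
  constructor
  · rintro ⟨⟨⟨n, p⟩, hρ⟩, h1, -, rfl⟩
    exact ⟨n, ⟨p, h1, hρ⟩, val_natN h hc n⟩
  · rintro ⟨n, ⟨p, hp, hρ⟩, rfl⟩
    exact ⟨⟨(n, p), hρ⟩, hp, natN_mem hc n, val_natN h hc n⟩

/-! ### Names of points -/

/-- A name of a point of the Cantor space; `D s p`: the condition `p` forces that `s` is an initial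
segment. -/
structure PN (P : Type) [PartialOrder P] where
  D : List Bool → P → Prop
  mono : ∀ s p q, q ≤ p → D s p → D s q
  dns : ∀ s p, (∀ q ≤ p, ∃ r ≤ q, D s r) → D s p
  nil : ∀ p, D [] p
  pre : ∀ s b p, D (s ++ [b]) p → D s p
  con : ∀ s t p, D s p → D t p → s <+: t ∨ t <+: s
  tot : ∀ k p, ∃ q ≤ p, ∃ s, s.length = k ∧ D s q

/-- A name of a closed set of points; `O s p`: the condition `p` forces that no point of the set
has the initial segment `s`. -/
structure CN (P : Type) [PartialOrder P] where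
  O : List Bool → P → Prop
  mono : ∀ s p q, q ≤ p → O s p → O s q
  dns : ∀ s p, (∀ q ≤ p, ∃ r ≤ q, O s r) → O s p
  ext : ∀ s b p, O s p → O (s ++ [b]) p
  spl : ∀ s p, O (s ++ [false]) p → O (s ++ [true]) p → O s p

theorem prefix_or_get {s t : List Bool} (h : s <+: t ∨ t <+: s) {i : ℕ} {b c : Bool}
    (hs : s[i]? = some b) (ht : t[i]? = some c) : b = c := by
  rcases h with ⟨u, rfl⟩ | ⟨u, rfl⟩
  · rw [List.getElem?_append_left (List.getElem?_eq_some_iff.1 hs).1, hs] at ht
    exact Option.some.inj ht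
  · rw [List.getElem?_append_left (List.getElem?_eq_some_iff.1 ht).1, ht] at hs
    exact (Option.some.inj hs).symm

theorem PN.agree (x : PN P) {s t : List Bool} {p : P} (hs : x.D s p) (ht : x.D t p) {i : ℕ}
    {b c : Bool} (h1 : s[i]? = some b) (h2 : t[i]? = some c) : b = c :=
  prefix_or_get (x.con _ _ _ hs ht) h1 h2

/-- the canonical name of the set `{n | x n = true}` -/
noncomputable def nm (x : PN P) : Nm P := nmS fun n p => ∃ s, x.D s p ∧ s[n]? = some true

theorem nm_inj {x x' : PN P} (h : nm x = nm x') : x = x' := by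
  have h1 := nmS_inj h
  have key : ∀ (x x' : PN P), (∀ (n : ℕ) (p : P), (∃ s, x.D s p ∧ s[n]? = some true) →
      ∃ s, x'.D s p ∧ s[n]? = some true) → (∀ (n : ℕ) (p : P), (∃ s, x'.D s p ∧
      s[n]? = some true) → ∃ s, x.D s p ∧ s[n]? = some true) → ∀ s p, x.D s p → x'.D s p := by
    intro x x' h h' s p hs
    refine x'.dns _ _ fun q hq => ?_
    obtain ⟨r, hr, s', hs', hr'⟩ := x'.tot s.length q
    have hsr := x.mono _ _ _ (hr.trans hq) hs
    have : s' = s := by
      refine List.ext_getElem hs' fun i h1 h2 => ?_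
      have e1 : s'[i]? = some s'[i] := List.getElem?_eq_getElem h1
      have e2 : s[i]? = some s[i] := List.getElem?_eq_getElem h2
      cases hb : s'[i] with
      | true =>
        rw [hb] at e1
        obtain ⟨t, ht, ht2⟩ := h' i r ⟨s', hr', e1⟩
        exact x.agree ht hsr ht2 e2
      | false =>
        cases hb' : s[i] with
        | false => rfl
        | true =>
          rw [hb'] at e2
          obtain ⟨t, ht, ht2⟩ := h i r ⟨s, hsr, e2⟩
          rw [hb] at e1
          exact (x'.agree ht hr' ht2 e1).symm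
    exact ⟨r, hr, this ▸ hr'⟩
  have h2 : ∀ (n : ℕ) (p : P), (∃ s, x.D s p ∧ s[n]? = some true) ↔
      ∃ s, x'.D s p ∧ s[n]? = some true := by
    intro n p
    exact Iff.of_eq (congrFun (congrFun h1 n) p)
  have hD : x.D = x'.D := by
    funext s p
    apply propext
    exact ⟨key x x' (fun n p => (h2 n p).1) (fun n p => (h2 n p).2) s p,
      key x' x (fun n p => (h2 n p).2) (fun n p => (h2 n p).1) s p⟩
  cases x; cases x'
  simp only at hD
  subst hD
  rfl

/-- the point named by `x` -/
noncomputable def ev (x : PN P) (G : Set P) : ℕ → Bool :=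
  pt {n | ∃ p ∈ G, ∃ s, x.D s p ∧ s[n]? = some true}

theorem val_nm {X : Set (Obj P)} {G : Set P} (h : Basic X G) (hc : Clos X) (x : PN P) :
    val X G (nm x) = st (ev x G) := by
  rw [nm, val_nmS h hc, ev, st_pt]

theorem ev_init {X : Set (Obj P)} {G : Set P} (h : IsFilt X G) (x : PN P) {p : P} (hp : p ∈ G)
    {s : List Bool} (hs : x.D s p) : Init s (ev x G) := by
  intro i b hb
  cases b with
  | true =>
    simp only [ev, pt, Set.mem_ofPred_eq, decide_eq_true_eq]
    exact ⟨p, hp, s, hs, hb⟩
  | false =>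
    simp only [ev, pt, Set.mem_ofPred_eq, decide_eq_false_iff_not]
    rintro ⟨q, hq, t, ht, hti⟩
    obtain ⟨r, -, hrp, hrq⟩ := h.compat hp hq
    have := x.agree (x.mono _ _ _ hrp hs) (x.mono _ _ _ hrq ht) hb hti
    cases this

/-- the initial segment of length `k` of `x` -/
def seg (x : ℕ → Bool) (k : ℕ) : List Bool := (List.range k).map x

@[simp] theorem seg_length (x : ℕ → Bool) (k : ℕ) : (seg x k).length = k := by simp [seg]

theorem seg_get {x : ℕ → Bool} {k i : ℕ} (h : i < k) : (seg x k)[i]? = some (x i) := by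
  simp [seg, h]

theorem init_iff {s : List Bool} {x : ℕ → Bool} : Init s x ↔ s = seg x s.length := by
  constructor
  · intro h
    refine List.ext_getElem (by simp) fun i h1 h2 => ?_
    have h3 : s[i]? = some s[i] := List.getElem?_eq_getElem h1
    have h4 := seg_get (x := x) h1
    rw [List.getElem?_eq_getElem h2] at h4
    rw [Option.some.inj h4]
    exact (h i _ h3).symm
  · intro h i b hb
    have hi := (List.getElem?_eq_some_iff.1 hb).1
    have h1 := seg_get (x := x) hi
    rw [← h, hb] at h1
    exact (Option.some.inj h1).symm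

theorem init_seg (x : ℕ → Bool) (k : ℕ) : Init (seg x k) x := by
  rw [init_iff, seg_length]

theorem seg_prefix {x : ℕ → Bool} {k m : ℕ} (h : k ≤ m) : seg x k <+: seg x m := by
  obtain ⟨d, rfl⟩ := Nat.exists_eq_add_of_le h
  refine ⟨(List.range' k d).map x, ?_⟩
  rw [seg, seg, ← List.map_append]
  congr 1
  rw [List.range_eq_range', List.range_eq_range']
  have := List.range'_append_1 (s := 0) (m := k) (n := d)
  rwa [Nat.zero_add] at this

theorem Init.pre {s t : List Bool} {x : ℕ → Bool} (hs : Init s x) (ht : t <+: s) :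
    Init t x := by
  obtain ⟨u, rfl⟩ := ht
  intro i b hb
  refine hs i b ?_
  rw [List.getElem?_append_left (List.getElem?_eq_some_iff.1 hb).1, hb]

/-- the name of the point `{n | nat n ∈ τ}` -/
noncomputable def rn (τ : Nm P) : PN P where
  D s p := ∀ (i : ℕ) b, s[i]? = some b → (b = true → FMem (ordN P (i : Ordinal.{0})) τ p) ∧
    (b = false → ∀ q ≤ p, ¬ FMem (ordN P (i : Ordinal.{0})) τ q)
  mono s p q hq h i b hb := ⟨fun h1 => ((h i b hb).1 h1).mono hq,
    fun h1 r hr => (h i b hb).2 h1 r (hr.trans hq)⟩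
  dns s p h i b hb := by
    refine ⟨fun h1 => FMem.dense fun q hq => ?_, fun h1 q hq hF => ?_⟩
    · obtain ⟨r, hr, h2⟩ := h q hq
      exact ⟨r, hr, (h2 i b hb).1 h1⟩
    · obtain ⟨r, hr, h2⟩ := h q hq
      exact (h2 i b hb).2 h1 r le_rfl (hF.mono hr)
  nil p i b hb := by simp at hb
  pre s b p h i c hc := h i c (by
    rw [List.getElem?_append_left (List.getElem?_eq_some_iff.1 hc).1, hc])
  con s t p hs ht := by
    have key : ∀ s t : List Bool, (∀ (i : ℕ) b c, s[i]? = some b → t[i]? = some c → b = c) →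
        s.length ≤ t.length → s <+: t := by
      intro s t h hl
      rw [List.prefix_iff_eq_take]
      refine List.ext_getElem (by simp [hl]) fun i h1 h2 => ?_
      rw [List.getElem_take]
      exact h i _ _ (List.getElem?_eq_getElem h1) (List.getElem?_eq_getElem (h1.trans_le hl))
    have h1 : ∀ (i : ℕ) b c, s[i]? = some b → t[i]? = some c → b = c := by
      intro i b c hb hc
      cases b <;> cases c
      · rfl
      · exact ((hs i _ hb).2 rfl p le_rfl ((ht i _ hc).1 rfl)).elim
      · exact ((ht i _ hc).2 rfl p le_rfl ((hs i _ hb).1 rfl)).elim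
      · rfl
    rcases le_total s.length t.length with h | h
    · exact Or.inl (key s t h1 h)
    · exact Or.inr (key t s (fun i b c hb hc => (h1 i c b hc hb).symm) h)
  tot k p := by
    induction k with
    | zero => exact ⟨p, le_rfl, [], rfl, fun i b hb => by simp at hb⟩
    | succ k ih =>
      obtain ⟨q, hq, s, hs, hD⟩ := ih
      by_cases hcase : ∃ r ≤ q, FMem (ordN P (k : Ordinal.{0})) τ r
      · obtain ⟨r, hr, hF⟩ := hcase
        refine ⟨r, hr.trans hq, s ++ [true], by simp [hs], fun i b hb => ?_⟩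
        rcases lt_or_ge i s.length with hi | hi
        · rw [List.getElem?_append_left hi] at hb
          exact ⟨fun h1 => ((hD i b hb).1 h1).mono hr,
            fun h1 u hu => (hD i b hb).2 h1 u (hu.trans hr)⟩
        · rw [List.getElem?_append_right hi] at hb
          obtain ⟨h3, h4⟩ := List.getElem?_eq_some_iff.1 hb
          have h5 : i = k := by simp at h3; omega
          simp only [List.getElem_singleton] at h4
          subst h4
          rw [h5]
          exact ⟨fun _ => hF, fun h => by cases h⟩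
      · push Not at hcase
        refine ⟨q, hq, s ++ [false], by simp [hs], fun i b hb => ?_⟩
        rcases lt_or_ge i s.length with hi | hi
        · rw [List.getElem?_append_left hi] at hb
          exact hD i b hb
        · rw [List.getElem?_append_right hi] at hb
          obtain ⟨h3, h4⟩ := List.getElem?_eq_some_iff.1 hb
          have h5 : i = k := by simp at h3; omega
          simp only [List.getElem_singleton] at h4
          subst h4
          rw [h5]
          exact ⟨fun h => (by cases h), fun _ => hcase⟩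

/-- the value of the canonical name of the point named by `τ` -/
theorem val_nm_rn {X : Set (Obj P)} {G : Set P} (h : Basic X G) (hc : Clos X) {τ : Nm P}
    (hτ : (Sum.inl τ : Obj P) ∈ X)
    (hg : ∀ k : ℕ, ∃ p ∈ G, ∃ s, s.length = k ∧ (rn τ).D s p) {x : ℕ → Bool}
    (hx : val X G τ = st x) : val X G (nm (rn τ)) = st x := by
  rw [val_nm h hc]
  congr 1
  funext n
  obtain ⟨p, hp, s, hs, hD⟩ := hg (n + 1)
  have h1 : s[n]? = some s[n] := List.getElem?_eq_getElem (by omega)
  rw [ev_init h.filt _ hp hD n _ h1]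
  have h2 : x n = true ↔ ∃ p ∈ G, FMem (ordN P (n : Ordinal.{0})) τ p := by
    rw [← h.mem_iff (natN_mem hc n) hτ, val_natN h hc, hx, st_eq, nat_mem_zs]
    rfl
  cases hb : s[n] with
  | true =>
    symm
    rw [h2]
    exact ⟨p, hp, (hD n _ h1).1 hb⟩
  | false =>
    symm
    rw [← Bool.not_eq_true, h2]
    rintro ⟨q, hq, hF⟩
    obtain ⟨r, -, hrp, hrq⟩ := h.filt.compat hp hq
    exact (hD n _ h1).2 hb r hrp (hF.mono hrq)

end Pool.Agent.Helper26.NE
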