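import Pool.Agent.Helper26.NE.Dfn
import Pool.Agent.Helper26.NE.Nam

/-!
# Tables of ground relations in the model, the spaces of points and of cuts
-/

open Ordinal

set_option linter.unusedSectionVars false

namespace Pool.Agent.Helper26.NE

open Pool.Agent.Helper96.Fc
open Pool.Agent.Helper89.FV (Dfb cns cns_mem pair_mem_iff)

/-- the name of a ground relation -/
noncomputable def tab2 (P : Type) [PartialOrder P] [OrderTop P] (R : ℕ → ℕ → Prop) : Nm P :=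
  Nm.mk {t : ℕ × ℕ // R t.1 t.2}
    (fun t => pairN (ordN P (t.1.1 : Ordinal.{0})) (ordN P (t.1.2 : Ordinal.{0}))) (fun _ => ⊤)

theorem T2_mod {P : Type} [PartialOrder P] [OrderTop P] {X : Set (Obj P)} {G : Set P}
    (h : Basic X G) (hc : Clos X) {R : ℕ → ℕ → Prop} (hR : (Sum.inl (tab2 P R) : Obj P) ∈ X) :
    T2 (Mod X G) R := by
  refine ⟨val X G (tab2 P R), mem_Mod hR, fun z => ?_⟩
  rw [mem_val]
  constructor
  · rintro ⟨⟨⟨k, l⟩, hkl⟩, -, -, rfl⟩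
    refine ⟨k, l, hkl, ?_⟩
    show val X G (pairN (ordN P (k : Ordinal.{0})) (ordN P (l : Ordinal.{0}))) = _
    rw [val_pairN h.filt hc (natN_mem hc k) (natN_mem hc l), val_natN h hc, val_natN h hc]
  · rintro ⟨k, l, hkl, rfl⟩
    refine ⟨⟨(k, l), hkl⟩, h.filt.top, hc.pair (natN_mem hc k) (natN_mem hc l), ?_⟩
    show val X G (pairN (ordN P (k : Ordinal.{0})) (ordN P (l : Ordinal.{0}))) = _
    rw [val_pairN h.filt hc (natN_mem hc k) (natN_mem hc l), val_natN h hc, val_natN h hc]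

/-! ### The Cantor space -/

/-- codes of the basic sets of the `n`-th copy of the Cantor space -/
def RF (k n : ℕ) : Prop := ∃ s : List Bool, k = Nat.pair n (Encodable.encode s)

/-- positive information -/
def R1 (k i : ℕ) : Prop := ∃ (n : ℕ) (s : List Bool), k = Nat.pair n (Encodable.encode s) ∧
  s[i]? = some true

/-- negative information -/
def R2 (k i : ℕ) : Prop := ∃ (n : ℕ) (s : List Bool), k = Nat.pair n (Encodable.encode s) ∧
  s[i]? = some false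

theorem pair_inj' {α : Type} [Encodable α] {m n : ℕ} {s t : α}
    (h : Nat.pair m (Encodable.encode s) = Nat.pair n (Encodable.encode t)) : m = n ∧ s = t := by
  rw [Nat.pair_eq_pair] at h
  exact ⟨h.1, Encodable.encode_injective h.2⟩

theorem Bs_iff {n : ℕ} {s : List Bool} {x : Set ℕ} :
    Bs R1 R2 (Nat.pair n (Encodable.encode s)) x ↔ Init s (pt x) := by
  constructor
  · rintro ⟨h1, h2⟩ i b hb
    cases b with
    | true => simpa [pt] using h1 i ⟨n, s, rfl, hb⟩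
    | false => simpa [pt] using h2 i ⟨n, s, rfl, hb⟩
  · intro h
    refine ⟨fun i hi => ?_, fun i hi => ?_⟩
    · obtain ⟨m, t, h1, h2⟩ := hi
      obtain ⟨rfl, rfl⟩ := pair_inj' h1
      simpa [pt] using h i _ h2
    · obtain ⟨m, t, h1, h2⟩ := hi
      obtain ⟨rfl, rfl⟩ := pair_inj' h1
      simpa [pt] using h i _ h2

theorem RF_iff {m n : ℕ} {s : List Bool} : RF (Nat.pair m (Encodable.encode s)) n ↔ m = n := by
  constructor
  · rintro ⟨t, h⟩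
    exact (pair_inj' h).1
  · rintro rfl
    exact ⟨s, rfl⟩

/-! ### The real line -/

/-- codes of the basic sets of the `n`-th copy of the real line -/
def QF (k n : ℕ) : Prop := ∃ t : ℚ × ℚ, k = Nat.pair n (Encodable.encode t)

/-- positive information -/
def Q1 (k i : ℕ) : Prop := ∃ (n : ℕ) (t : ℚ × ℚ), k = Nat.pair n (Encodable.encode t) ∧
  i = Encodable.encode t.1

/-- negative information -/
def Q2 (k i : ℕ) : Prop := ∃ (n : ℕ) (t : ℚ × ℚ), k = Nat.pair n (Encodable.encode t) ∧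
  i = Encodable.encode t.2

/-- the order of the rational numbers -/
def QL (i j : ℕ) : Prop := ∃ p q : ℚ, i = Encodable.encode p ∧ j = Encodable.encode q ∧ p < q

/-- the cut of a real number -/
def cs (r : ℝ) : Set ℕ := {n | ∃ q : ℚ, (q : ℝ) < r ∧ n = Encodable.encode q}

theorem mem_cs {r : ℝ} {q : ℚ} : Encodable.encode q ∈ cs r ↔ (q : ℝ) < r := by
  constructor
  · rintro ⟨q', h1, h2⟩
    rwa [Encodable.encode_injective h2]
  · exact fun h => ⟨q, h, rfl⟩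

theorem QBs_iff {n : ℕ} {t : ℚ × ℚ} {r : ℝ} :
    Bs Q1 Q2 (Nat.pair n (Encodable.encode t)) (cs r) ↔ (t.1 : ℝ) < r ∧ r ≤ t.2 := by
  constructor
  · rintro ⟨h1, h2⟩
    exact ⟨mem_cs.1 (h1 _ ⟨n, t, rfl, rfl⟩), not_lt.1 fun h => h2 _ ⟨n, t, rfl, rfl⟩ (mem_cs.2 h)⟩
  · rintro ⟨h1, h2⟩
    refine ⟨fun i hi => ?_, fun i hi => ?_⟩
    · obtain ⟨m, t', h3, rfl⟩ := hi
      obtain ⟨rfl, rfl⟩ := pair_inj' h3
      exact mem_cs.2 h1
    · obtain ⟨m, t', h3, rfl⟩ := hi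
      obtain ⟨rfl, rfl⟩ := pair_inj' h3
      exact fun h => absurd (mem_cs.1 h) (not_lt.2 h2)

theorem QF_iff {m n : ℕ} {t : ℚ × ℚ} : QF (Nat.pair m (Encodable.encode t)) n ↔ m = n := by
  constructor
  · rintro ⟨t', h⟩
    exact (pair_inj' h).1
  · rintro rfl
    exact ⟨t, rfl⟩

/-- `x` is the cut of a real number -/
theorem cut_iff {x : Set ℕ} : (∃ r, x = cs r) ↔ (∃ i, i ∈ x) ∧ (∃ i, i ∉ x ∧ ∃ j, QL i j) ∧
    (∀ i ∈ x, ∀ j, QL j i → j ∈ x) ∧ ∀ i ∈ x, ∃ j ∈ x, QL i j := by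
  constructor
  · rintro ⟨r, rfl⟩
    refine ⟨?_, ?_, ?_, ?_⟩
    · obtain ⟨q, hq⟩ := exists_rat_lt r
      exact ⟨_, mem_cs.2 hq⟩
    · obtain ⟨q, hq⟩ := exists_rat_gt r
      exact ⟨Encodable.encode q, fun h => absurd (mem_cs.1 h) (not_lt.2 hq.le),
        Encodable.encode (q + 1), q, q + 1, rfl, rfl, by linarith⟩
    · rintro _ ⟨q, hq, rfl⟩ _ ⟨p, q', rfl, h1, h2⟩
      rw [Encodable.encode_injective h1] at hq
      exact mem_cs.2 (lt_trans (by exact_mod_cast h2) hq)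
    · rintro _ ⟨q, hq, rfl⟩
      obtain ⟨p, h1, h2⟩ := exists_rat_btwn hq
      exact ⟨_, mem_cs.2 h2, q, p, rfl, rfl, by exact_mod_cast h1⟩
  · rintro ⟨⟨i, hi⟩, ⟨i', hi', j', hj'⟩, h3, h4⟩
    obtain ⟨j, -, q0, -, rfl, -, -⟩ := h4 i hi
    obtain ⟨q1, -, rfl, -, -⟩ := hj'
    have key : ∀ q : ℚ, Encodable.encode q ∈ x → q < q1 := by
      intro q hq
      by_contra hcon
      rcases (not_lt.1 hcon).lt_or_eq with h5 | h5
      · exact hi' (h3 _ hq _ ⟨q1, q, rfl, rfl, h5⟩)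
      · exact hi' (h5 ▸ hq)
    have hne : ((fun q : ℚ => (q : ℝ)) '' {q | Encodable.encode q ∈ x}).Nonempty :=
      ⟨_, q0, hi, rfl⟩
    have hbd : BddAbove ((fun q : ℚ => (q : ℝ)) '' {q | Encodable.encode q ∈ x}) := by
      refine ⟨q1, ?_⟩
      rintro _ ⟨q, hq, rfl⟩
      show (q : ℝ) ≤ q1
      exact_mod_cast (key q hq).le
    refine ⟨sSup ((fun q : ℚ => (q : ℝ)) '' {q | Encodable.encode q ∈ x}), ?_⟩
    ext k
    constructor
    · intro hk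
      obtain ⟨j, hj, q, p, rfl, rfl, hqp⟩ := h4 k hk
      refine mem_cs.2 (lt_of_lt_of_le (b := (p : ℝ)) (by exact_mod_cast hqp) ?_)
      exact le_csSup hbd ⟨p, hj, rfl⟩
    · rintro ⟨q, hq, rfl⟩
      obtain ⟨_, ⟨p, hp, rfl⟩, h5⟩ := exists_lt_of_lt_csSup hne hq
      have h5 : (q : ℝ) < p := h5
      exact h3 _ hp _ ⟨q, p, rfl, rfl, by exact_mod_cast h5⟩

/-- the set of the points in `N` -/
theorem exists_points {N : Set ZFSet.{0}} (hN : IsZFC N) : ∃ S ∈ N, (∀ z ∈ S, z ⊆ om) ∧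
    ∀ x, zs x ∈ S ↔ zs x ∈ N := by
  obtain ⟨S, hS, h⟩ := Helper89.FV.exists_powerset hN (om_mem hN)
  refine ⟨S, hS, fun z hz => ((h z).1 hz).2, fun x => ?_⟩
  rw [h]
  exact ⟨fun h => h.1, fun h => ⟨h, zs_subset x⟩⟩

/-- the set of the real numbers in `N` -/
theorem exists_cuts {N : Set ZFSet.{0}} (hN : IsZFC N) (hL : T2 N QL) : ∃ S ∈ N,
    (∀ z ∈ S, z ⊆ om) ∧ ∀ x, zs x ∈ S ↔ zs x ∈ N ∧ ∃ r, x = cs r := by
  obtain ⟨S, hS, hS1, hS2⟩ := exists_points hN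
  obtain ⟨L, hLN, hL'⟩ := hL
  have hom := om_mem hN
  obtain ⟨b, hb, h⟩ := (Dfb.and (.exB hN 0 (.mem 0 3))
    (.and (.exB hN 2 (.and (.neg (.mem 0 1)) (.exB hN 3 (.pair_mem hN 1 0 3))))
    (.and (.allB hN 0 (.allB hN 3 (.imp (.pair_mem hN 0 1 3) (.mem 0 2))))
      (.allB hN 0 (.exB hN 1 (.pair_mem hN 1 0 3)))))).sep hN
    (v := cns L (fun _ => om)) (cns_mem hLN fun _ => hom) (a := S) hS
  have h' : ∀ z, z ∈ b ↔ z ∈ S ∧ (∃ i ∈ z, i ∈ om) ∧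
      (∃ i ∈ om, ¬ i ∈ z ∧ ∃ j ∈ om, ZFSet.pair i j ∈ L) ∧
      (∀ i ∈ z, ∀ j ∈ om, ZFSet.pair j i ∈ L → j ∈ z) ∧
      ∀ i ∈ z, ∃ j ∈ z, ZFSet.pair i j ∈ L := h
  refine ⟨b, hb, fun z hz => hS1 z ((h' z).1 hz).1, fun x => ?_⟩
  rw [h', hS2, cut_iff]
  refine and_congr_right fun _ => ?_
  refine and_congr ?_ (and_congr ?_ (and_congr ?_ ?_))
  · constructor
    · rintro ⟨i, hi, -⟩
      obtain ⟨n, hn, rfl⟩ := mem_zs.1 hi
      exact ⟨n, hn⟩
    · rintro ⟨n, hn⟩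
      exact ⟨nat n, nat_mem_zs.2 hn, nat_mem_om n⟩
  · constructor
    · rintro ⟨i, hi, h1, j, hj, h2⟩
      obtain ⟨m, rfl⟩ := mem_om.1 hi
      obtain ⟨n, rfl⟩ := mem_om.1 hj
      exact ⟨m, fun h => h1 (nat_mem_zs.2 h), n, (T2_pair hL').1 h2⟩
    · rintro ⟨m, h1, n, h2⟩
      exact ⟨nat m, nat_mem_om m, fun h => h1 (nat_mem_zs.1 h), nat n, nat_mem_om n,
        (T2_pair hL').2 h2⟩
  · constructor
    · intro h1 i hi j hj
      exact nat_mem_zs.1 (h1 _ (nat_mem_zs.2 hi) _ (nat_mem_om j) ((T2_pair hL').2 hj))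
    · intro h1 i hi j hj h2
      obtain ⟨m, hm, rfl⟩ := mem_zs.1 hi
      obtain ⟨n, rfl⟩ := mem_om.1 hj
      exact nat_mem_zs.2 (h1 m hm n ((T2_pair hL').1 h2))
  · constructor
    · intro h1 i hi
      obtain ⟨j, hj, h2⟩ := h1 _ (nat_mem_zs.2 hi)
      obtain ⟨n, hn, rfl⟩ := mem_zs.1 hj
      exact ⟨n, hn, (T2_pair hL').1 h2⟩
    · intro h1 i hi
      obtain ⟨m, hm, rfl⟩ := mem_zs.1 hi
      obtain ⟨n, hn, h2⟩ := h1 m hm
      exact ⟨nat n, nat_mem_zs.2 hn, (T2_pair hL').2 h2⟩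

end Pool.Agent.Helper26.NE
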