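import Pool.Agent.Helper26.NE.Cl
import Pool.Agent.Helper26.NE.Tab

/-!
# Good pairs for operations and relations on tuples of names
-/

open Ordinal

set_option linter.unusedSectionVars false

namespace Pool.Agent.Helper26.NE

open Pool.Agent.Helper96.Fc

variable {P : Type} [PartialOrder P] [OrderTop P]

theorem map_inl_inj {ts ts' : List (Nm P)}
    (h : ts.map (Sum.inl : Nm P → Obj P) = ts'.map Sum.inl) : ts = ts' :=
  List.map_injective_iff.2 Sum.inl_injective h

/-- Good pairs, general form. -/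
theorem exists_pair2 (Op : ℕ → List (Nm P) → Nm P)
    (Q : ℕ → P → Nm P → ℕ → List (Nm P) → Prop) (p₀ : P) :
    ∃ (X : Set (Obj P)) (G : Set P), X.Countable ∧ p₀ ∈ G ∧ Basic X G ∧ Clos X ∧
      (∀ k (ts : List (Nm P)), (∀ t ∈ ts, (Sum.inl t : Obj P) ∈ X) →
        (Sum.inl (Op k ts) : Obj P) ∈ X) ∧
      ∀ k n (ts : List (Nm P)), (∀ t ∈ ts, (Sum.inl t : Obj P) ∈ X) →
        ∃ p ∈ G, (∃ y, (Sum.inl y : Obj P) ∈ X ∧ Q k p y n ts) ∨ ∀ q ≤ p, ∀ y, ¬ Q k q y n ts := by
  classical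
  obtain ⟨X, G, h1, h2, h3, h4, h5, h6⟩ := exists_pair
    (fun l n => if h : ∃ ts : List (Nm P), l = ts.map Sum.inl then Sum.inl (Op n h.choose)
      else Sum.inr p₀)
    (fun k p l => ∃ (y : Nm P) (n : ℕ) (ts : List (Nm P)),
      l = Sum.inl y :: Sum.inl (ordN P (n : Ordinal.{0})) :: ts.map Sum.inl ∧ Q k p y n ts) p₀
  refine ⟨X, G, h1, h2, h3, h4, ?_, ?_⟩
  · intro k ts hts
    have h7 := h5 (ts.map Sum.inl) (by
      intro a ha
      obtain ⟨t, ht, rfl⟩ := List.mem_map.1 ha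
      exact hts t ht) k
    have h8 : ∃ ts' : List (Nm P), ts.map (Sum.inl : Nm P → Obj P) = ts'.map Sum.inl := ⟨ts, rfl⟩
    simp only [dif_pos h8] at h7
    rwa [← map_inl_inj h8.choose_spec] at h7
  · intro k n ts hts
    obtain ⟨p, hp, h7⟩ := h6 k (Sum.inl (ordN P (n : Ordinal.{0})) :: ts.map Sum.inl) (by
      intro a ha
      rcases List.mem_cons.1 ha with rfl | ha
      · exact natN_mem h4 n
      · obtain ⟨t, ht, rfl⟩ := List.mem_map.1 ha
        exact hts t ht)
    refine ⟨p, hp, ?_⟩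
    rcases h7 with ⟨y, hy, y', n', ts', h8, h9⟩ | h7
    · left
      simp only [List.cons.injEq, Sum.inl.injEq] at h8
      obtain ⟨rfl, h10, h11⟩ := h8
      have h12 : n = n' := by exact_mod_cast ordN_inj' h10
      rw [← h12, ← map_inl_inj h11] at h9
      exact ⟨y', hy, h9⟩
    · right
      intro q hq y hQ
      exact h7 q hq (Sum.inl y) ⟨y, n, ts, rfl, hQ⟩

/-- the names of the elements of an index type -/
noncomputable def aN (P : Type) [PartialOrder P] [OrderTop P] {A : Type} (α : A) : Nm P :=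
  ordN P (Ordinal.typein (WellOrderingRel : A → A → Prop) α)

theorem aN_inj {A : Type} {α β : A} (h : aN P α = aN P β) : α = β :=
  (Ordinal.typein_inj _).1 (ordN_inj' h)

end Pool.Agent.Helper26.NE
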