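import Pool.Agent.Helper26.NE.Sys

/-!
# The good pairs for the two groups
-/

open Ordinal

set_option linter.unusedSectionVars false

namespace Pool.Agent.Helper26.NE

open Pool.Agent.Helper96.Fc
open Pool.Agent.Helper34.SG (bv)

variable {P : Type} [PartialOrder P] [OrderTop P]

/-- the left endpoint of the dyadic interval with the code `s` in `[i, i + 1]` -/
def lo (i : ℤ) (s : List Bool) : ℚ := i + bv s / 2 ^ s.length

/-- the right endpoint of the dyadic interval with the code `s` in `[i, i + 1]` -/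
def hi (i : ℤ) (s : List Bool) : ℚ := i + (bv s + 1) / 2 ^ s.length

/-- the name of the real number `i + x` -/
noncomputable def nmR (x : PN P) (i : ℤ) : Nm P :=
  nmS fun n p => ∃ s, x.D s p ∧ ∃ q : ℚ, n = Encodable.encode q ∧ q < lo i s

/-- an enumeration of the integers -/
noncomputable def Iz (n : ℕ) : ℤ := (Encodable.decode (α := ℤ) n).getD 0

theorem Iz_encode (i : ℤ) : Iz (Encodable.encode i) = i := by
  rw [Iz, Encodable.encodek]; rfl

variable {A : Type} (E : A → ℕ → P → Prop) (Sy : ℕ → Sys P) (Tb : ℕ → ℕ → ℕ → Prop)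

/-- The properties of the good pair. -/
structure GP (X : Set (Obj P)) (G : Set P) : Prop where
  basic : Basic X G
  clos : Clos X
  rnc : ∀ τ : Nm P, (Sum.inl τ : Obj P) ∈ X → (Sum.inl (nm (rn τ)) : Obj P) ∈ X
  enm : ∀ α, (Sum.inl (aN P α) : Obj P) ∈ X → (Sum.inl (nmS (E α)) : Obj P) ∈ X
  tab : ∀ i, (Sum.inl (tab2 P (Tb i)) : Obj P) ∈ X
  rcl : ∀ x i, (Sum.inl (nm x) : Obj P) ∈ X → (Sum.inl (nmR x i) : Obj P) ∈ X
  len : ∀ τ : Nm P, (Sum.inl τ : Obj P) ∈ X → ∀ k, ∃ p ∈ G, ∃ s, s.length = k ∧ (rn τ).D s p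
  null : ∀ α, (Sum.inl (aN P α) : Obj P) ∈ X → ∀ j k, ∃ p ∈ G, NullAt (E α) j k p
  fin : ∀ (τ : Nm P) (α : A), (Sum.inl τ : Obj P) ∈ X → (Sum.inl (aN P α) : Obj P) ∈ X →
    (∃ p ∈ G, ∃ j, FIn (rn τ) (E α) j p) ∨ ∃ p ∈ G, ∀ q ≤ p, ∀ j, ¬ FIn (rn τ) (E α) j q
  dic : ∀ b, Dic E (Sy b) X G

open Classical in
/-- the operations -/
noncomputable def OO (k : ℕ) (ts : List (Nm P)) : Nm P :=
  match k.unpair.1, ts with
  | 0, [t] => nm (rn t)
  | 1, [t] => if h : ∃ α, t = aN P α then nmS (E h.choose) else t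
  | 2, [] => tab2 P (Tb k.unpair.2)
  | 3, [t] => if h : ∃ x, t = nm x then nmR h.choose (Iz k.unpair.2) else t
  | _, _ => ordN P 0

/-- the relations -/
def QQ : ℕ → P → Nm P → ℕ → List (Nm P) → Prop
  | 0, p, _, n, [t] => ∃ s, s.length = n ∧ (rn t).D s p
  | 1, p, _, n, [a] => ∃ α, a = aN P α ∧ NullAt (E α) n.unpair.1 n.unpair.2 p
  | 2, p, _, _, [t, a] => ∃ α j, a = aN P α ∧ FIn (rn t) (E α) j p
  | 3, p, y, n, [g] => ∃ α, y = aN P α ∧ Bad1 E (Sy n) g α p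
  | 4, p, y, n, [g, c] => ∃ x₁ x₂, y = pairN (nm x₁) (nm x₂) ∧ Bad2 (Sy n) g c x₁ x₂ p
  | 5, p, _, n, [c] => ∃ m s, Bad3 (Sy n) c m s p
  | 6, p, _, n, [c, t₁, t₂] => ∃ x₁ x₂, t₁ = nm x₁ ∧ t₂ = nm x₂ ∧
      Sm (Sy n.unpair.1) c n.unpair.2 x₁ x₂ p
  | 7, p, _, n, [c] => ∃ s : List Bool, n.unpair.2.unpair.2 = Encodable.encode s ∧
      (Sy n.unpair.1).K c n.unpair.2.unpair.1 s p
  | _, _, _, _, _ => False

variable {E}

theorem exists_GP (hnull : ∀ α j k p, ∃ q ≤ p, NullAt (E α) j k q) (p₀ : P) :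
    ∃ (X : Set (Obj P)) (G : Set P), X.Countable ∧ p₀ ∈ G ∧ GP E Sy Tb X G := by
  obtain ⟨X, G, hX, hp₀, hb, hc, hO, hQ⟩ := exists_pair2 (OO E Tb) (QQ E Sy) p₀
  have hO1 : ∀ i j (t : Nm P), (Sum.inl t : Obj P) ∈ X →
      (Sum.inl (OO E Tb (Nat.pair i j) [t]) : Obj P) ∈ X := fun i j t ht =>
    hO _ [t] (by simpa using ht)
  refine ⟨X, G, hX, hp₀, hb, hc, ?_, ?_, ?_, ?_, ?_, ?_, ?_, ?_⟩
  · intro τ hτ
    have h := hO1 0 0 τ hτ
    simpa [OO] using h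
  · intro α hα
    have h := hO1 1 0 _ hα
    have h1 : ∃ β, aN P α = aN P β := ⟨α, rfl⟩
    have h2 : h1.choose = α := (aN_inj h1.choose_spec).symm
    simp only [OO, Nat.unpair_pair, dif_pos h1] at h
    rwa [h2] at h
  · intro i
    have h := hO (Nat.pair 2 i) [] (by simp)
    simpa [OO] using h
  · intro x i hx
    have h := hO1 3 (Encodable.encode i) _ hx
    have h1 : ∃ y, nm x = nm y := ⟨x, rfl⟩
    have h2 : h1.choose = x := (nm_inj h1.choose_spec).symm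
    simp only [OO, Nat.unpair_pair, dif_pos h1] at h
    rwa [h2, Iz_encode] at h
  · intro τ hτ k
    obtain ⟨p, hp, h⟩ := hQ 0 k [τ] (by simpa using hτ)
    rcases h with ⟨y, -, h⟩ | h
    · exact ⟨p, hp, h⟩
    · exfalso
      obtain ⟨q, hq, s, hs, hD⟩ := (rn τ).tot k p
      exact h q hq τ ⟨s, hs, hD⟩
  · intro α hα j k
    obtain ⟨p, hp, h⟩ := hQ 1 (Nat.pair j k) [aN P α] (by simpa using hα)
    rcases h with ⟨y, -, β, h1, h2⟩ | h
    · obtain rfl := aN_inj h1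
      simp only [Nat.unpair_pair] at h2
      exact ⟨p, hp, h2⟩
    · exfalso
      obtain ⟨q, hq, h3⟩ := hnull α j k p
      exact h q hq (aN P α) ⟨α, rfl, by simpa only [Nat.unpair_pair] using h3⟩
  · intro τ α hτ hα
    obtain ⟨p, hp, h⟩ := hQ 2 0 [τ, aN P α] (by simp [hτ, hα])
    rcases h with ⟨y, -, β, j, h1, h2⟩ | h
    · obtain rfl := aN_inj h1
      exact Or.inl ⟨p, hp, j, h2⟩
    · exact Or.inr ⟨p, hp, fun q hq j hj => h q hq τ ⟨α, j, rfl, hj⟩⟩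
  · intro b
    refine ⟨?_, ?_, ?_, ?_, ?_⟩
    · intro g hg
      obtain ⟨p, hp, h⟩ := hQ 3 b [g] (by simpa using hg)
      rcases h with ⟨y, hy, α, rfl, h2⟩ | h
      · exact Or.inl ⟨p, hp, α, hy, h2⟩
      · exact Or.inr ⟨p, hp, fun q hq α hα => h q hq (aN P α) ⟨α, rfl, hα⟩⟩
    · intro g c hg hc'
      obtain ⟨p, hp, h⟩ := hQ 4 b [g, c] (by simp [hg, hc'])
      rcases h with ⟨y, hy, x₁, x₂, rfl, h2⟩ | h
      · exact Or.inl ⟨p, hp, x₁, x₂, hc.fst _ _ hy, hc.snd _ _ hy, h2⟩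
      · exact Or.inr ⟨p, hp, fun q hq x₁ x₂ hB => h q hq _ ⟨x₁, x₂, rfl, hB⟩⟩
    · intro c hc'
      obtain ⟨p, hp, h⟩ := hQ 5 b [c] (by simpa using hc')
      rcases h with ⟨y, hy, n, s, h2⟩ | h
      · exact Or.inl ⟨p, hp, n, s, h2⟩
      · exact Or.inr ⟨p, hp, fun q hq n s hB => h q hq c ⟨n, s, hB⟩⟩
    · intro c n x₁ x₂ hc' hx₁ hx₂
      obtain ⟨p, hp, h⟩ := hQ 6 (Nat.pair b n) [c, nm x₁, nm x₂] (by simp [hc', hx₁, hx₂])
      rcases h with ⟨y, hy, x₁', x₂', h1, h2, h3⟩ | h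
      · rw [← nm_inj h1, ← nm_inj h2, Nat.unpair_pair] at h3
        exact Or.inl ⟨p, hp, h3⟩
      · refine Or.inr ⟨p, hp, fun q hq hB => h q hq c ⟨x₁, x₂, rfl, rfl, ?_⟩⟩
        rw [Nat.unpair_pair]
        exact hB
    · intro c n s hc'
      obtain ⟨p, hp, h⟩ := hQ 7 (Nat.pair b (Nat.pair n (Encodable.encode s))) [c]
        (by simpa using hc')
      rcases h with ⟨y, hy, s', h1, h2⟩ | h
      · rw [Nat.unpair_pair] at h1 h2
        simp only [Nat.unpair_pair] at h1 h2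
        rw [← Encodable.encode_injective h1] at h2
        exact Or.inl ⟨p, hp, h2⟩
      · refine Or.inr ⟨p, hp, fun q hq hB => h q hq c ⟨s, ?_, ?_⟩⟩
        · simp only [Nat.unpair_pair]
        · simp only [Nat.unpair_pair]
          exact hB

end Pool.Agent.Helper26.NE
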