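import Pool.Agent.Helper26.NE.ECode

/-!
# The real line
-/

open Ordinal

set_option linter.unusedSectionVars false

namespace Pool.Agent.Helper26.NE

open Pool.Agent.Helper96.Fc
open Pool.Agent.Helper34.SG (bv bits NbR)

variable {P : Type} [PartialOrder P] [OrderTop P] {X : Set (Obj P)} {G : Set P}

/-- **The real line.** -/
theorem real_side {A : Type} {E : A → ℕ → P → Prop} {Sy : ℕ → Sys P} {Tb : ℕ → ℕ → ℕ → Prop}
    (hS : Side P E) (h : GP E Sy Tb X G) {b : ℕ} (hSy : Sy b = SR P)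
    (hTF : T2 (Mod X G) QF) (hT1 : T2 (Mod X G) Q1) (hT2 : T2 (Mod X G) Q2)
    (hTL : T2 (Mod X G) QL) (hD : ∀ i, T2 (Mod X G) (RD i)) (hE1 : T2 (Mod X G) RE1)
    (hE2 : T2 (Mod X G) RE2) (hE3 : T2 (Mod X G) RE3) {𝒢 : ZFSet.{0}}
    (hG : SubgroupR (Mod X G) 𝒢) (hM : MeagreR (Mod X G) 𝒢) : InER (Mod X G) 𝒢 := by
  by_contra hE
  have hb := h.basic
  have hc := h.clos
  have hN : IsZFC (Mod X G) := Mod.isZFC hb hc
  obtain ⟨⟨hGN, hpts⟩, h0, hsub⟩ := hG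
  have hadd : ∀ r s, ct r ∈ 𝒢 → ct s ∈ 𝒢 → ct (r + s) ∈ 𝒢 := by
    intro r s hr hs
    have h1 := hsub r (0 - s) hr (hsub 0 s h0 hs)
    rwa [show r - (0 - s) = r + s by ring] at h1
  obtain ⟨g, hg, rfl⟩ := id hGN
  obtain ⟨F, hF, hfun, hQ, hcov⟩ := hM
  obtain ⟨c, hcN, hcode⟩ := exists_code hN hTF hT1 hT2 hF
  obtain ⟨κ, hκ, hκv⟩ := id hcN
  have hDic : Dic E (SR P) X G := hSy ▸ h.dic b
  -- the points of the subgroup
  have key : ∀ r, ct r ∈ val X G g → ∃ n, ∀ t : ℚ × ℚ, (t.1 : ℝ) < r → r ≤ t.2 →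
      nat (Nat.pair n (Encodable.encode t)) ∈ val X G κ := by
    intro r hr
    obtain ⟨n, C, hnC, hrC⟩ := hcov _ hr
    refine ⟨n, fun t ht1 ht2 => ?_⟩
    rw [hκv, nat_mem_zs, hcode]
    refine ⟨n, C, cs r, QF_iff.2 rfl, hnC, ?_, ?_⟩
    · rwa [← ct_cs]
    · rw [QBs_iff]
      exact ⟨ht1, ht2⟩
  refine core hb hDic hS.circle hg hκ ?_ ?_ ?_
  · intro p hp α hα hB
    apply hE
    have he : zs {n | ∃ p ∈ G, E α n p} ∈ Mod X G := by
      rw [← val_nmS hb hc]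
      exact mem_Mod (h.enm α hα)
    obtain ⟨S, hSN, hS1, hS2⟩ := exists_cuts hN hTL
    obtain ⟨F', hF', hf, htot, hmem⟩ := exists_sets hN hTF hT1 hT2
      (eR_mem hN hE1 hE2 hE3 he) hSN hS1
    have hmem2 : ∀ n C, ZFSet.pair (nat n) C ∈ F' → ∀ r : ℝ, ct r ∈ C ↔ ct r ∈ Mod X G ∧
        ∀ a b : ℚ, Wt {n | ∃ p ∈ G, E α n p} n a b → ¬ ((a : ℝ) < r ∧ r ≤ b) := by
      intro n C hnC r
      obtain ⟨hC1, hC2, hC3⟩ := hmem n C hnC
      rw [ct_cs, hC3, hS2]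
      constructor
      · rintro ⟨⟨h1, -⟩, h2⟩
        refine ⟨h1, fun a b hW hab => ?_⟩
        exact h2 _ (mem_eR.2 hW) (QF_iff.2 rfl) (QBs_iff.2 hab)
      · rintro ⟨h1, h2⟩
        refine ⟨⟨h1, r, rfl⟩, fun k hk hkn hkr => ?_⟩
        obtain ⟨⟨a, b⟩, rfl⟩ := id hkn
        exact h2 a b (mem_eR.1 hk) (QBs_iff.1 hkr)
    refine ⟨F', hF', hf, ?_, ?_⟩
    · intro n C hnC
      have hC3 := hmem2 n C hnC
      obtain ⟨hC1, hC2, -⟩ := hmem n C hnC
      refine ⟨⟨hC1, fun z hz => ?_⟩, ?_, ?_⟩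
      · obtain ⟨x, rfl⟩ := exists_zs (hS1 _ (hC2 _ hz))
        obtain ⟨-, r, rfl⟩ := (hS2 x).1 (hC2 _ hz)
        exact ⟨r, (ct_cs r).symm⟩
      · intro r hr hrC
        rw [hC3] at hrC
        push Not at hrC
        obtain ⟨a, b', hW, h1, h2⟩ := hrC hr
        obtain ⟨b'', hb'', hW'⟩ := hW.right
        refine ⟨a, b'', h1, lt_of_le_of_lt h2 (by exact_mod_cast hb''), fun s hs hs' => ?_⟩
        rw [hC3] at hs
        exact hs.2 a b'' hW' ⟨hs'.1, hs'.2.le⟩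
      · intro k M
        by_cases hn : ∃ (j : ℕ) (i : ℤ), n = Nat.pair j (Encodable.encode i)
        · obtain ⟨j, i, rfl⟩ := hn
          obtain ⟨q, hq, m, T, -, hcard, hmem'⟩ := h.null α hα j (k + 2)
          obtain ⟨L, hL1, hL2, hL3⟩ := null_eR (e := {n | ∃ p ∈ G, E α n p}) (j := j) (i := i)
            hcard (fun s hs hsT => ⟨q, hq, hmem' s hs hsT⟩)
          refine ⟨L, hL1, hL2, fun r hr _ => ?_⟩
          rw [hC3] at hr
          exact hL3 r hr.2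
        · refine ⟨[], by simp, by simp, fun r hr _ => ?_⟩
          rw [hC3] at hr
          obtain ⟨a, ha⟩ := exists_rat_lt r
          obtain ⟨b', hb'⟩ := exists_rat_gt r
          exact (hr.2 a b' ⟨0, fun s hs j i hji => (hn ⟨j, i, hji⟩).elim⟩ ⟨ha, hb'.le⟩).elim
    · intro z hz
      obtain ⟨r, rfl⟩ := hpts z hz
      by_contra hcon
      push Not at hcon
      have hrN : ct r ∈ Mod X G := hN.trans _ hGN _ hz
      -- the digits
      obtain ⟨i, hi1, hi2⟩ : ∃ i : ℤ, (i : ℝ) < r ∧ r ≤ i + 1 := by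
        refine ⟨⌈r⌉ - 1, ?_, ?_⟩
        · push_cast
          linarith [Int.ceil_lt_add_one r]
        · push_cast
          linarith [Int.le_ceil r]
      have hdig : zs (dg i r) ∈ Mod X G :=
        exists_real hN (hD i) hT1 hT2 (by rwa [← ct_cs])
      obtain ⟨τ, hτ, hτv⟩ := id hdig
      rw [← st_pt] at hτv
      have hlen := h.len τ hτ
      have hev := ev_rn hb hc hτ hlen hτv
      have hrep : Rep i (ev (rn τ) G) r := by
        intro k
        rw [hev]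
        exact ⟨(dg_spec hi1 hi2 k).1.le, (dg_spec hi1 hi2 k).2⟩
      have hv := val_nmR hb hc hlen hrep
      rw [← hv] at hz
      obtain ⟨q, hq, hFM⟩ := (hb.mem_iff (h.rcl _ i (h.rnc τ hτ)) hg).1 hz
      rcases h.fin τ α hτ hα with ⟨p', hp', j, hj⟩ | ⟨p', hp', hj⟩
      · obtain ⟨C, hjC⟩ := htot (Nat.pair j (Encodable.encode i))
        refine hcon _ C hjC ?_
        rw [hmem2 _ C hjC]
        refine ⟨hrN, fun a b' hW hab => ?_⟩
        obtain ⟨t, ht, p3, hp3, h3⟩ := hW.kil hrep hab.1 hab.2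
        exact fin_truth hb hlen hp' hj hS.mono ht hp3 h3
      · obtain ⟨u, -, h1, h2, h3⟩ := common hb hp hq hp'
        exact hB u h1 (rn τ) ⟨i, hFM.mono h2⟩ fun j r hr => hj r (hr.trans h3) j
  · intro p hp x₁ x₂ hx₁ hx₂ hB
    obtain ⟨i₁, hB1⟩ := hB.1
    obtain ⟨i₂, hB2⟩ := hB.2.1
    have h1 : val X G (nmR x₁ i₁) ∈ val X G g :=
      (hb.mem_iff (h.rcl _ _ hx₁) hg).2 ⟨p, hp, hB1⟩
    have h2 : val X G (nmR x₂ i₂) ∈ val X G g :=
      (hb.mem_iff (h.rcl _ _ hx₂) hg).2 ⟨p, hp, hB2⟩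
    obtain ⟨r₁, hr₁⟩ := hpts _ h1
    obtain ⟨r₂, hr₂⟩ := hpts _ h2
    rw [hr₁] at h1
    rw [hr₂] at h2
    obtain ⟨m, hm⟩ := key _ (hadd _ _ h1 h2)
    set i' : ℤ := i₁ + i₂ + (if r₁ - i₁ + (r₂ - i₂) ≤ 1 then 0 else 1) with hi'
    obtain ⟨q, hq, ρ, τ, hlen, hρ, hτ, hl⟩ := bad2_false hb hDic hκ hp hx₁ hx₂ hB
      (Nat.pair m (Encodable.encode i'))
    obtain ⟨k1, k2⟩ := nmR_bounds hb hc hr₁ hq hρ
    obtain ⟨k3, k4⟩ := nmR_bounds hb hc hr₂ hq hτ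
    obtain ⟨l, hl1, hl2, hl3⟩ := nbR_mem hlen k1 k2 k3 k4
    have h3 := hl l hl1
    have h4 : (CCR κ m i').O l q := by
      have h5 : (SR P).CF κ (Nat.pair m (Encodable.encode i')) = CCR κ m i' := by
        show CCR κ _ _ = CCR κ m i'
        rw [Nat.unpair_pair, Iz_encode]
      rw [h5] at h3
      exact h3
    refine CCR_truth hb hc hκ (fun s => ?_) hm hl2 hl3 hq h4
    have h6 := hDic.kc κ (Nat.pair m (Encodable.encode i')) s hκ
    have h7 : ∀ r, (SR P).K κ (Nat.pair m (Encodable.encode i')) s r ↔ KR κ m i' s r := by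
      intro r
      show KR κ _ _ s r ↔ _
      rw [Nat.unpair_pair, Iz_encode]
    simp only [h7] at h6
    exact h6
  · intro p hp n s hB
    set m := n.unpair.1 with hm
    set i := Iz n.unpair.2 with hi'
    have h1 : ∃ (a : ℚ) (t : List Bool), a < lo i (s ++ t) ∧
        nat (Nat.pair m (Encodable.encode ((a, hi i (s ++ t)) : ℚ × ℚ))) ∉ val X G κ := by
      by_cases hC : ∃ C, ZFSet.pair (nat m) C ∈ F
      · obtain ⟨C, hC⟩ := hC
        obtain ⟨a, b', ha, hab, hb', hab'⟩ := (hQ m C hC).2 (lo i s) (hi i s) (lo_lt_hi i s)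
        obtain ⟨t, ht1, ht2⟩ := exists_sub i s ha hab hb'
        refine ⟨a, t, ht1, fun hk => ?_⟩
        rw [hκv, nat_mem_zs, hcode] at hk
        obtain ⟨n', C', x, g1, g2, g3, g4⟩ := hk
        rw [QF_iff] at g1
        subst g1
        rw [hfun m C' C g2 hC] at g3
        obtain ⟨r, hr⟩ := (hQ m C hC).1.2 _ g3
        rw [ct_cs] at hr
        rw [zs_inj hr] at g3 g4
        rw [QBs_iff] at g4
        rw [← ct_cs] at g3
        refine hab' r g3 ⟨g4.1, lt_of_le_of_lt g4.2 ?_⟩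
        exact_mod_cast ht2
      · refine ⟨lo i (s ++ []) - 1, [], by linarith, fun hk => ?_⟩
        rw [hκv, nat_mem_zs, hcode] at hk
        obtain ⟨n', C', x, g1, g2, g3, g4⟩ := hk
        rw [QF_iff] at g1
        subst g1
        exact hC ⟨C', g2⟩
    obtain ⟨a, t, hat, ht⟩ := h1
    obtain ⟨q, hq, hNI⟩ := exists_notIn hb hc hκ ht
    obtain ⟨u, -, h2, h3⟩ := hb.filt.compat hp hq
    refine hB u h2 (s ++ t) (List.prefix_append s t) ?_
    show (CCR κ m i).O (s ++ t) u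
    rw [CCR_O]
    intro v hv
    refine ⟨v, le_rfl, [(a, hi i (s ++ t))], fun w hw => ?_, fun x hx1 hx2 => ?_⟩
    · rw [List.mem_singleton] at hw
      rw [hw]
      exact hNI.mono (hv.trans h3)
    · refine ⟨_, List.mem_singleton.2 rfl, lt_of_lt_of_le ?_ hx1, hx2⟩
      exact_mod_cast hat

end Pool.Agent.Helper26.NE
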