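import Pool.Agent.Helper26.NE.Gp
import Pool.Agent.Helper24.SG.Stein3

/-!
# Dyadic intervals
-/

set_option linter.unusedSectionVars false

namespace Pool.Agent.Helper26.NE

open Pool.Agent.Helper34.SG (bv bits NbR)
open Pool.Agent.Helper34.SG.S23

theorem lo_nil (i : ℤ) : lo i [] = i := by simp [lo, bv]

theorem hi_nil (i : ℤ) : hi i [] = i + 1 := by simp [hi, bv]

theorem hi_eq (i : ℤ) (s : List Bool) : hi i s = lo i s + 1 / 2 ^ s.length := by
  rw [hi, lo]
  ring

theorem lo_append (i : ℤ) (s t : List Bool) :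
    lo i (s ++ t) = lo i s + bv t / 2 ^ (s.length + t.length) := by
  rw [lo, lo, bv_append, List.length_append]
  push_cast
  rw [add_div, pow_add, mul_div_mul_right _ _ (by positivity)]
  ring

theorem hi_append (i : ℤ) (s t : List Bool) :
    hi i (s ++ t) = lo i s + (bv t + 1) / 2 ^ (s.length + t.length) := by
  rw [hi_eq, lo_append, List.length_append]
  ring

theorem lo_le (i : ℤ) {s t : List Bool} (h : s <+: t) : lo i s ≤ lo i t := by
  obtain ⟨u, rfl⟩ := h
  rw [lo_append]
  have : (0 : ℚ) ≤ bv u / 2 ^ (s.length + u.length) := by positivity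
  linarith

theorem le_hi (i : ℤ) {s t : List Bool} (h : s <+: t) : hi i t ≤ hi i s := by
  obtain ⟨u, rfl⟩ := h
  rw [hi_append, hi_eq]
  have h1 : ((bv u : ℚ) + 1) / 2 ^ (s.length + u.length) ≤ 1 / 2 ^ s.length := by
    rw [div_le_div_iff₀ (by positivity) (by positivity), pow_add]
    have h2 : ((bv u : ℚ) + 1) ≤ 2 ^ u.length := by exact_mod_cast bv_lt u
    have h3 : (0 : ℚ) < 2 ^ s.length := by positivity
    nlinarith
  linarith

theorem lo_lt_hi (i : ℤ) (s : List Bool) : lo i s < hi i s := by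
  rw [hi_eq]
  have : (0 : ℚ) < 1 / 2 ^ s.length := by positivity
  linarith

theorem hi_false (i : ℤ) (s : List Bool) : hi i (s ++ [false]) = lo i (s ++ [true]) := by
  rw [hi_append, lo_append]
  simp [bv]

theorem hi_true (i : ℤ) (s : List Bool) : hi i (s ++ [true]) = hi i s := by
  rw [hi_append, hi_eq]
  simp only [bv, List.foldl_cons, List.foldl_nil, List.length_singleton, pow_succ]
  norm_num
  ring

theorem lo_false (i : ℤ) (s : List Bool) : lo i (s ++ [false]) = lo i s := by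
  rw [lo_append]
  simp [bv]

/-- Every subinterval of a dyadic interval contains a dyadic subinterval. -/
theorem exists_sub (i : ℤ) (s : List Bool) {a b : ℚ} (ha : lo i s ≤ a) (hab : a < b)
    (hb : b ≤ hi i s) : ∃ t : List Bool, a < lo i (s ++ t) ∧ hi i (s ++ t) < b := by
  obtain ⟨k, hk⟩ : ∃ k : ℕ, (2 : ℚ) / (b - a) < 2 ^ k := pow_unbounded_of_one_lt _ (by norm_num)
  have hD : (0 : ℚ) < 2 ^ (s.length + k) := by positivity
  have hD1 : (2 : ℚ) < (b - a) * 2 ^ (s.length + k) := by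
    have h1 : (2 : ℚ) < (b - a) * 2 ^ k := by
      rw [div_lt_iff₀ (by linarith)] at hk
      linarith
    have h2 : (1 : ℚ) ≤ 2 ^ s.length := one_le_pow₀ (by norm_num)
    rw [pow_add]
    have h3 : (0 : ℚ) < (b - a) * 2 ^ k := by linarith
    nlinarith
  have hnn : 0 ≤ (a - lo i s) * 2 ^ (s.length + k) := mul_nonneg (by linarith) hD.le
  have f1 := Nat.lt_floor_add_one ((a - lo i s) * 2 ^ (s.length + k))
  have f2 := Nat.floor_le hnn
  set M := ⌊(a - lo i s) * 2 ^ (s.length + k)⌋₊ with hM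
  have hbs : (b - lo i s) * 2 ^ (s.length + k) ≤ 2 ^ k := by
    have h1 : b - lo i s ≤ 1 / 2 ^ s.length := by
      rw [hi_eq] at hb
      linarith
    calc (b - lo i s) * 2 ^ (s.length + k) ≤ 1 / 2 ^ s.length * 2 ^ (s.length + k) :=
          mul_le_mul_of_nonneg_right h1 hD.le
      _ = 2 ^ k := by
          rw [pow_add]
          field_simp
  have h3 : ((M : ℚ) + 1) + 1 < (b - lo i s) * 2 ^ (s.length + k) := by nlinarith
  have hlt : M + 1 < 2 ^ k := by
    have : ((M : ℚ) + 1) < 2 ^ k := by linarith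
    exact_mod_cast this
  have hbv : bv (bits k (M + 1)) = M + 1 := by rw [bv_bits, Nat.mod_eq_of_lt hlt]
  refine ⟨bits k (M + 1), ?_, ?_⟩
  · rw [lo_append, hbv, bits_length]
    push_cast
    have : a - lo i s < ((M : ℚ) + 1) / 2 ^ (s.length + k) := by
      rw [lt_div_iff₀ hD]
      exact f1
    linarith
  · rw [hi_append, hbv, bits_length]
    push_cast
    have : ((M : ℚ) + 1 + 1) / 2 ^ (s.length + k) < b - lo i s := by
      rw [div_lt_iff₀ hD]
      exact h3
    linarith

/-- The sum of two points of dyadic intervals. -/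
theorem nbR_mem {ρ τ : List Bool} (hl : ρ.length = τ.length) {i j : ℤ} {u v : ℝ}
    (hu1 : (lo i ρ : ℝ) ≤ u) (hu2 : u ≤ hi i ρ) (hv1 : (lo j τ : ℝ) ≤ v) (hv2 : v ≤ hi j τ) :
    ∃ l ∈ NbR ρ τ, (lo (i + j + (if u - i + (v - j) ≤ 1 then 0 else 1)) l : ℝ) ≤ u + v ∧
      u + v ≤ hi (i + j + (if u - i + (v - j) ≤ 1 then 0 else 1)) l := by
  set k := ρ.length with hk
  set K : ℕ := 2 ^ k with hK
  have hKpos : (0 : ℝ) < K := by rw [hK]; positivity
  set y : ℝ := (u - i + (v - j)) * K with hy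
  have e1 : (bv ρ : ℝ) ≤ (u - i) * K := by
    simp only [lo, Rat.cast_add, Rat.cast_intCast, Rat.cast_div, Rat.cast_natCast, Rat.cast_pow,
      Rat.cast_ofNat] at hu1
    have : (bv ρ : ℝ) / 2 ^ ρ.length ≤ u - i := by linarith
    rw [div_le_iff₀ (by positivity)] at this
    rw [hK, hk]
    push_cast
    exact this
  have e2 : (u - i) * K ≤ (bv ρ : ℝ) + 1 := by
    simp only [hi, Rat.cast_add, Rat.cast_intCast, Rat.cast_div, Rat.cast_natCast, Rat.cast_pow,
      Rat.cast_ofNat, Rat.cast_one] at hu2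
    have : u - i ≤ ((bv ρ : ℝ) + 1) / 2 ^ ρ.length := by linarith
    rw [le_div_iff₀ (by positivity)] at this
    rw [hK, hk]
    push_cast
    exact this
  have e3 : (bv τ : ℝ) ≤ (v - j) * K := by
    simp only [lo, Rat.cast_add, Rat.cast_intCast, Rat.cast_div, Rat.cast_natCast, Rat.cast_pow,
      Rat.cast_ofNat] at hv1
    have : (bv τ : ℝ) / 2 ^ τ.length ≤ v - j := by linarith
    rw [div_le_iff₀ (by positivity), ← hl] at this
    rw [hK, hk]
    push_cast
    exact this
  have e4 : (v - j) * K ≤ (bv τ : ℝ) + 1 := by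
    simp only [hi, Rat.cast_add, Rat.cast_intCast, Rat.cast_div, Rat.cast_natCast, Rat.cast_pow,
      Rat.cast_ofNat, Rat.cast_one] at hv2
    have : v - j ≤ ((bv τ : ℝ) + 1) / 2 ^ τ.length := by linarith
    rw [le_div_iff₀ (by positivity), ← hl] at this
    rw [hK, hk]
    push_cast
    exact this
  have l1 : bv ρ + 1 ≤ K := bv_lt ρ
  have l2 : bv τ + 1 ≤ K := by
    have := bv_lt τ
    rw [← hl] at this
    exact this
  -- it is enough to find a number
  have main : ∀ (δ : ℤ) (e : ℕ), e < 4 → ((bv ρ + bv τ + K - 1 + e) % K : ℕ) ≤ y - δ * K →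
      y - δ * K ≤ ((bv ρ + bv τ + K - 1 + e) % K : ℕ) + 1 →
      ∃ l ∈ NbR ρ τ, (lo (i + j + δ) l : ℝ) ≤ u + v ∧ u + v ≤ hi (i + j + δ) l := by
    intro δ e he h1 h2
    refine ⟨bits k (bv ρ + bv τ + K - 1 + e), Finset.mem_image.2 ⟨e, Finset.mem_range.2 he, rfl⟩,
      ?_, ?_⟩
    · simp only [lo, Rat.cast_add, Rat.cast_intCast, Rat.cast_div, Rat.cast_natCast, Rat.cast_pow,
        Rat.cast_ofNat, bits_length, bv_bits]
      push_cast
      have h3 : (((bv ρ + bv τ + K - 1 + e) % K : ℕ) : ℝ) / 2 ^ k ≤ u - i + (v - j) - δ := by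
        rw [div_le_iff₀ (by positivity)]
        have : (2 : ℝ) ^ k = K := by rw [hK]; push_cast; rfl
        rw [this]
        linarith
      have h4 : ((bv ρ + bv τ + K - 1 + e) % 2 ^ k : ℕ) = (bv ρ + bv τ + K - 1 + e) % K := rfl
      rw [← h4] at h3
      linarith
    · simp only [hi, Rat.cast_add, Rat.cast_intCast, Rat.cast_div, Rat.cast_natCast, Rat.cast_pow,
        Rat.cast_ofNat, bits_length, bv_bits, Rat.cast_one]
      push_cast
      have h3 : u - i + (v - j) - δ ≤ ((((bv ρ + bv τ + K - 1 + e) % K : ℕ) : ℝ) + 1) / 2 ^ k := by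
        rw [le_div_iff₀ (by positivity)]
        have : (2 : ℝ) ^ k = K := by rw [hK]; push_cast; rfl
        rw [this]
        linarith
      have h4 : ((bv ρ + bv τ + K - 1 + e) % 2 ^ k : ℕ) = (bv ρ + bv τ + K - 1 + e) % K := rfl
      rw [← h4] at h3
      linarith
  have hmod1 : ∀ w, w < K → (w + K) % K = w := fun w hw => by
    rw [Nat.add_mod_right, Nat.mod_eq_of_lt hw]
  have hyS1 : ((bv ρ : ℝ) + bv τ) ≤ y := by rw [hy, add_mul]; linarith
  have hyS2 : y ≤ ((bv ρ : ℝ) + bv τ) + 2 := by rw [hy, add_mul]; linarith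
  -- the number `w`
  obtain ⟨w, e, he, he', hw1, hw2, hwe⟩ : ∃ w e : ℕ, 1 ≤ e ∧ e ≤ 2 ∧ (w : ℝ) ≤ y ∧ y ≤ w + 1 ∧
      w + 1 = bv ρ + bv τ + e := by
    rcases le_total y ((bv ρ : ℝ) + bv τ + 1) with h | h
    · exact ⟨bv ρ + bv τ, 1, le_rfl, by norm_num, by push_cast; exact hyS1,
        by push_cast; exact h, rfl⟩
    · exact ⟨bv ρ + bv τ + 1, 2, by norm_num, le_rfl, by push_cast; exact h,
        by push_cast; linarith, rfl⟩
  split_ifs with hle
  · have hyK : y ≤ K := by
      rw [hy]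
      calc (u - i + (v - j)) * K ≤ 1 * K := mul_le_mul_of_nonneg_right hle hKpos.le
        _ = K := one_mul _
    rcases lt_or_ge w K with hwK | hwK
    · have h1 : bv ρ + bv τ + K - 1 + e = w + K := by omega
      refine main 0 e (by omega) ?_ ?_
      · rw [h1, hmod1 w hwK]; push_cast; linarith
      · rw [h1, hmod1 w hwK]; push_cast; linarith
    · have h2 : (w : ℝ) ≤ K := hw1.trans hyK
      have h3 : w = K := le_antisymm (by exact_mod_cast h2) hwK
      have h1 : bv ρ + bv τ + K - 1 + (e - 1) = (K - 1) + K := by omega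
      have hyK' : y = K := le_antisymm hyK (by rw [← h3]; exact hw1)
      have h4 : ((K - 1 : ℕ) : ℝ) = K - 1 := by
        rw [Nat.cast_sub (by omega)]; push_cast; rfl
      refine main 0 (e - 1) (by omega) ?_ ?_
      · rw [h1, hmod1 (K - 1) (by omega), hyK', h4]; push_cast; linarith
      · rw [h1, hmod1 (K - 1) (by omega), hyK', h4]; push_cast; linarith
  · have hyK : (K : ℝ) < y := by
      rw [hy]
      calc (K : ℝ) = 1 * K := (one_mul _).symm
        _ < (u - i + (v - j)) * K := mul_lt_mul_of_pos_right (not_le.1 hle) hKpos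
    have hwK : K ≤ w := by
      have : (K : ℝ) < w + 1 := hyK.trans_le hw2
      have : K < w + 1 := by exact_mod_cast this
      omega
    have h1 : bv ρ + bv τ + K - 1 + e = (w - K) + K + K := by omega
    have h2 : (w - K + K + K) % K = w - K := by
      rw [Nat.add_mod_right, hmod1 (w - K) (by omega)]
    have h4 : ((w - K : ℕ) : ℝ) = w - K := by rw [Nat.cast_sub hwK]
    refine main 1 e (by omega) ?_ ?_
    · rw [h1, h2, h4]; push_cast; linarith
    · rw [h1, h2, h4]; push_cast; linarith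

end Pool.Agent.Helper26.NE
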