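import Pool.Agent.Helper26.NE.Num
import Pool.Agent.Helper26.NE.Cantor

/-!
# Names of real numbers and of closed sets of real numbers
-/

open Ordinal

set_option linter.unusedSectionVars false

namespace Pool.Agent.Helper26.NE

open Pool.Agent.Helper96.Fc
open Pool.Agent.Helper34.SG (bv bits NbR)
open Pool.Agent.Helper34.SG.S23

variable {P : Type} [PartialOrder P] [OrderTop P]

/-- the interval of `s` is covered by intervals outside the closed set number `m` -/
def KR (c : Nm P) (m : ℕ) (i : ℤ) (s : List Bool) (r : P) : Prop :=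
  ∃ L : List (ℚ × ℚ), (∀ t ∈ L, NotIn c (Nat.pair m (Encodable.encode t)) r) ∧
    ∀ x : ℝ, (lo i s : ℝ) ≤ x → x ≤ hi i s → ∃ t ∈ L, (t.1 : ℝ) < x ∧ x ≤ t.2

/-- the part in `[i, i + 1]` of the closed set number `m` with the code named by `c` -/
def CCR (c : Nm P) (m : ℕ) (i : ℤ) : CN P :=
  mkCN (KR c m i)
    (fun s p q hq h => by
      obtain ⟨L, h1, h2⟩ := h
      exact ⟨L, fun t ht => (h1 t ht).mono hq, h2⟩)
    (fun s b p h => by
      obtain ⟨L, h1, h2⟩ := h
      refine ⟨L, h1, fun x hx1 hx2 => h2 x ?_ ?_⟩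
      · have : lo i s ≤ lo i (s ++ [b]) := lo_le i (List.prefix_append _ _)
        exact (Rat.cast_le.2 this).trans hx1
      · have : hi i (s ++ [b]) ≤ hi i s := le_hi i (List.prefix_append _ _)
        exact hx2.trans (Rat.cast_le.2 this))
    (fun s p h0 h1 => by
      obtain ⟨L0, h01, h02⟩ := h0
      obtain ⟨L1, h11, h12⟩ := h1
      refine ⟨L0 ++ L1, fun t ht => ?_, fun x hx1 hx2 => ?_⟩
      · rcases List.mem_append.1 ht with h | h
        · exact h01 t h
        · exact h11 t h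
      · rw [hi_false, lo_false] at h02
        rw [hi_true] at h12
        rcases le_total x (lo i (s ++ [true])) with h | h
        · obtain ⟨t, ht, h3⟩ := h02 x hx1 h
          exact ⟨t, List.mem_append_left _ ht, h3⟩
        · obtain ⟨t, ht, h3⟩ := h12 x h hx2
          exact ⟨t, List.mem_append_right _ ht, h3⟩)

theorem CCR_O {c : Nm P} {m : ℕ} {i : ℤ} {s : List Bool} {p : P} :
    (CCR c m i).O s p ↔ ∀ q ≤ p, ∃ r ≤ q, KR c m i s r := Iff.rfl

/-- the system of the real line -/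
noncomputable def SR (P : Type) [PartialOrder P] [OrderTop P] : Sys P where
  GG g x p := ∃ i, FMem (nmR x i) g p
  mono _ _ _ _ h h1 := by
    obtain ⟨i, h1⟩ := h1
    exact ⟨i, h1.mono h⟩
  CF c n := CCR c n.unpair.1 (Iz n.unpair.2)
  K c n s r := KR c n.unpair.1 (Iz n.unpair.2) s r
  CF_iff _ _ _ _ := CCR_O
  Nb := NbR

section

variable {X : Set (Obj P)} {G : Set P}

/-- truth for the closed set `CCR c m i` -/
theorem CCR_truth (h : Basic X G) (hc : Clos X) {c : Nm P} (hcX : (Sum.inl c : Obj P) ∈ X) {m : ℕ}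
    {i : ℤ} (hg : ∀ s, (∃ r ∈ G, KR c m i s r) ∨ ∃ q ∈ G, ∀ r ≤ q, ¬ KR c m i s r) {x : ℝ}
    (hx : ∀ t : ℚ × ℚ, (t.1 : ℝ) < x → x ≤ t.2 →
      nat (Nat.pair m (Encodable.encode t)) ∈ val X G c) {s : List Bool}
    (h1 : (lo i s : ℝ) ≤ x) (h2 : x ≤ hi i s) {r : P} (hr : r ∈ G) : ¬ (CCR c m i).O s r := by
  intro hO
  rcases hg s with ⟨r', hr', L, hL, hcov⟩ | ⟨q, hq, h3⟩
  · obtain ⟨t, ht, h4, h5⟩ := hcov x h1 h2
    obtain ⟨p', hp', hF⟩ := (nat_mem_val h hc hcX _).1 (hx t h4 h5)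
    obtain ⟨r'', -, h6, h7⟩ := h.filt.compat hr' hp'
    exact hL t ht r'' h6 (hF.mono h7)
  · obtain ⟨r1, -, h2, h4⟩ := h.filt.compat hr hq
    obtain ⟨r2, h5, h6⟩ := hO r1 h2
    exact h3 r2 (h5.trans h4) h6

theorem ct_cs (r : ℝ) : ct r = zs (cs r) := ct_eq r

theorem lo_le_hi_of_prefix (i : ℤ) {s t : List Bool} (h : s <+: t ∨ t <+: s) :
    lo i s ≤ hi i t := by
  rcases h with h | h
  · exact (lo_le i h).trans (lo_lt_hi i t).le
  · exact (lo_lt_hi i s).le.trans (le_hi i h)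

/-- bounds of the real number named by `nmR x i` -/
theorem nmR_bounds (h : Basic X G) (hc : Clos X) {x : PN P} {i : ℤ} {r : ℝ}
    (hr : val X G (nmR x i) = ct r) {p : P} (hp : p ∈ G) {s : List Bool} (hs : x.D s p) :
    (lo i s : ℝ) ≤ r ∧ r ≤ hi i s := by
  rw [nmR, val_nmS h hc, ct_cs] at hr
  have h1 := zs_inj hr
  have h2 : ∀ q : ℚ, (q : ℝ) < r ↔ ∃ p ∈ G, ∃ s, x.D s p ∧ q < lo i s := by
    intro q
    rw [← mem_cs, ← h1]
    constructor
    · rintro ⟨p, hp, s, hs, q', h3, h4⟩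
      rw [← Encodable.encode_injective h3] at h4
      exact ⟨p, hp, s, hs, h4⟩
    · rintro ⟨p, hp, s, hs, h4⟩
      exact ⟨p, hp, s, hs, q, rfl, h4⟩
  constructor
  · by_contra hcon
    push Not at hcon
    obtain ⟨q, h3, h4⟩ := exists_rat_btwn hcon
    have h5 := (h2 q).2 ⟨p, hp, s, hs, by exact_mod_cast h4⟩
    linarith
  · by_contra hcon
    push Not at hcon
    obtain ⟨q, h3, h4⟩ := exists_rat_btwn hcon
    obtain ⟨p', hp', s', hs', h5⟩ := (h2 q).1 h4
    obtain ⟨u, -, h6, h7⟩ := h.filt.compat hp hp'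
    have h8 := lo_le_hi_of_prefix i (x.con s' s u (x.mono _ _ _ h7 hs') (x.mono _ _ _ h6 hs))
    have h9 : (q : ℝ) < lo i s' := by exact_mod_cast h5
    have h10 : (lo i s' : ℝ) ≤ hi i s := by exact_mod_cast h8
    linarith

/-- `i + x = r` -/
def Rep (i : ℤ) (x : ℕ → Bool) (r : ℝ) : Prop :=
  ∀ k, (lo i (seg x k) : ℝ) ≤ r ∧ r ≤ hi i (seg x k)

/-- the value of `nmR x i` -/
theorem val_nmR (h : Basic X G) (hc : Clos X) {x : PN P} {i : ℤ} {r : ℝ}
    (hlen : ∀ k, ∃ p ∈ G, ∃ s, s.length = k ∧ x.D s p) (hr : Rep i (ev x G) r) :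
    val X G (nmR x i) = ct r := by
  rw [nmR, val_nmS h hc, ct_cs]
  congr 1
  ext n
  constructor
  · rintro ⟨p, hp, s, hs, q, rfl, hq⟩
    have h1 := init_iff.1 (ev_init h.filt x hp hs)
    have h2 := (hr s.length).1
    rw [← h1] at h2
    refine mem_cs.2 (lt_of_lt_of_le ?_ h2)
    exact_mod_cast hq
  · rintro ⟨q, hq, rfl⟩
    obtain ⟨k, hk⟩ : ∃ k : ℕ, (1 / 2 : ℝ) ^ k < r - q :=
      exists_pow_lt_of_lt_one (by linarith) (by norm_num)
    obtain ⟨p, hp, hD⟩ := exists_D h hlen (init_seg (ev x G) k)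
    refine ⟨p, hp, _, hD, q, rfl, ?_⟩
    have h2 := (hr k).2
    rw [hi_eq, seg_length] at h2
    push_cast at h2
    rw [div_pow, one_pow] at hk
    have h3 : (q : ℝ) < lo i (seg (ev x G) k) := by linarith
    exact_mod_cast h3

/-! ### Binary digits -/

/-- the relation defining the digits -/
def RD (i : ℤ) (n k : ℕ) : Prop := ∃ s : List Bool, s.length = n ∧
  k = Nat.pair 0 (Encodable.encode ((lo i (s ++ [true]), hi i (s ++ [true])) : ℚ × ℚ))

/-- the set of the digits equal to one -/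
def dg (i : ℤ) (r : ℝ) : Set ℕ := {n | ∃ k, RD i n k ∧ Bs Q1 Q2 k (cs r)}

theorem mem_dg {i : ℤ} {r : ℝ} {n : ℕ} : n ∈ dg i r ↔ ∃ s : List Bool, s.length = n ∧
    (lo i (s ++ [true]) : ℝ) < r ∧ r ≤ hi i (s ++ [true]) := by
  constructor
  · rintro ⟨k, ⟨s, hs, rfl⟩, h⟩
    exact ⟨s, hs, QBs_iff.1 h⟩
  · rintro ⟨s, hs, h⟩
    exact ⟨_, ⟨s, hs, rfl⟩, QBs_iff.2 h⟩

theorem lo_inj {i : ℤ} {s t : List Bool} (h : s.length = t.length) {r : ℝ}
    (hs1 : (lo i s : ℝ) < r) (hs2 : r ≤ hi i s) (ht1 : (lo i t : ℝ) < r) (ht2 : r ≤ hi i t) :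
    s = t := by
  refine bv_inj h ?_
  have key : ∀ s t : List Bool, s.length = t.length → (lo i s : ℝ) < r → r ≤ hi i t →
      bv s ≤ bv t := by
    intro s t h hs1 ht2
    have h1 : lo i s < hi i t := by
      have := hs1.trans_le ht2
      exact_mod_cast this
    rw [lo, hi, h] at h1
    have h2 : (bv s : ℚ) / 2 ^ t.length < (bv t + 1) / 2 ^ t.length := by linarith
    rw [div_lt_div_iff_of_pos_right (by positivity)] at h2
    have h3 : bv s < bv t + 1 := by exact_mod_cast h2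
    omega
  exact le_antisymm (key s t h hs1 ht2) (key t s h.symm ht1 hs2)

theorem seg_succ (x : ℕ → Bool) (k : ℕ) : seg x (k + 1) = seg x k ++ [x k] := by
  simp [seg, List.range_succ]

theorem dg_spec {i : ℤ} {r : ℝ} (h1 : (i : ℝ) < r) (h2 : r ≤ i + 1) (k : ℕ) :
    (lo i (seg (pt (dg i r)) k) : ℝ) < r ∧ r ≤ hi i (seg (pt (dg i r)) k) := by
  induction k with
  | zero =>
    have : seg (pt (dg i r)) 0 = [] := rfl
    rw [this, lo_nil, hi_nil]
    push_cast
    exact ⟨h1, h2⟩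
  | succ k ih =>
    rw [seg_succ]
    cases hx : pt (dg i r) k with
    | true =>
      have h3 : k ∈ dg i r := by simpa [pt] using hx
      obtain ⟨s, hs, h4, h5⟩ := mem_dg.1 h3
      have h6 : s = seg (pt (dg i r)) k := by
        refine lo_inj (by rw [hs, seg_length]) (i := i) (r := r) ?_ ?_ ih.1 ih.2
        · refine lt_of_le_of_lt ?_ h4
          exact_mod_cast lo_le i (List.prefix_append s [true])
        · refine h5.trans ?_
          exact_mod_cast le_hi i (List.prefix_append s [true])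
      rw [← h6]
      exact ⟨h4, h5⟩
    | false =>
      have h3 : k ∉ dg i r := by simpa [pt] using hx
      rw [lo_false, hi_false]
      refine ⟨ih.1, ?_⟩
      by_contra hcon
      push Not at hcon
      refine h3 (mem_dg.2 ⟨_, seg_length _ k, hcon, ?_⟩)
      rw [hi_true]
      exact ih.2

end

end Pool.Agent.Helper26.NE
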