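import Pool.Agent.Helper26.NE.Good2

/-!
# Systems (the Cantor group, the real line), the dichotomies, the application of the core theorem
-/

open Ordinal

set_option linter.unusedSectionVars false

namespace Pool.Agent.Helper26.NE

open Pool.Agent.Helper96.Fc

variable {P : Type} [PartialOrder P] [OrderTop P]

/-- What is different for the two groups. -/
structure Sys (P : Type) [PartialOrder P] [OrderTop P] where
  /-- the condition forces that the point belongs to the subgroup -/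
  GG : Nm P → PN P → P → Prop
  mono : ∀ g x q r, r ≤ q → GG g x q → GG g x r
  /-- the closed sets with the given code -/
  CF : Nm P → ℕ → CN P
  K : Nm P → ℕ → List Bool → P → Prop
  CF_iff : ∀ c n s p, (CF c n).O s p ↔ ∀ q ≤ p, ∃ r ≤ q, K c n s r
  Nb : List Bool → List Bool → Finset (List Bool)

variable {A : Type} (E : A → ℕ → P → Prop) (S : Sys P)

/-- nothing below `p` is a point of the subgroup outside the set number `α` -/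
def Bad1 (g : Nm P) (α : A) (p : P) : Prop :=
  ∀ q ≤ p, ∀ x, S.GG g x q → ¬ ∀ j, ∀ r ≤ q, ¬ FIn x (E α) j r

/-- nothing below `p` forces that the sum belongs to one of the closed sets -/
def Bad2 (g c : Nm P) (x₁ x₂ : PN P) (p : P) : Prop :=
  S.GG g x₁ p ∧ S.GG g x₂ p ∧ ∀ q ≤ p, ∀ n, ¬ SumIn S.Nb x₁ x₂ (S.CF c n) q

/-- the closed set is dense somewhere -/
def Bad3 (c : Nm P) (n : ℕ) (s : List Bool) (p : P) : Prop :=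
  ∀ q ≤ p, ∀ t, s <+: t → ¬ (S.CF c n).O t q

/-- a witness that the sum is not in the closed set -/
def Sm (c : Nm P) (n : ℕ) (x₁ x₂ : PN P) (p : P) : Prop :=
  ∃ ρ τ, ρ.length = τ.length ∧ x₁.D ρ p ∧ x₂.D τ p ∧ ∀ l ∈ S.Nb ρ τ, (S.CF c n).O l p

/-- the dichotomies for the system -/
structure Dic (X : Set (Obj P)) (G : Set P) : Prop where
  bad1 : ∀ g : Nm P, (Sum.inl g : Obj P) ∈ X →
    (∃ p ∈ G, ∃ α, (Sum.inl (aN P α) : Obj P) ∈ X ∧ Bad1 E S g α p) ∨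
      ∃ p ∈ G, ∀ q ≤ p, ∀ α, ¬ Bad1 E S g α q
  bad2 : ∀ g c : Nm P, (Sum.inl g : Obj P) ∈ X → (Sum.inl c : Obj P) ∈ X →
    (∃ p ∈ G, ∃ x₁ x₂, (Sum.inl (nm x₁) : Obj P) ∈ X ∧ (Sum.inl (nm x₂) : Obj P) ∈ X ∧
      Bad2 S g c x₁ x₂ p) ∨ ∃ p ∈ G, ∀ q ≤ p, ∀ x₁ x₂, ¬ Bad2 S g c x₁ x₂ q
  bad3 : ∀ c : Nm P, (Sum.inl c : Obj P) ∈ X →
    (∃ p ∈ G, ∃ n s, Bad3 S c n s p) ∨ ∃ p ∈ G, ∀ q ≤ p, ∀ n s, ¬ Bad3 S c n s q
  sm : ∀ (c : Nm P) (n : ℕ) (x₁ x₂ : PN P), (Sum.inl c : Obj P) ∈ X →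
    (Sum.inl (nm x₁) : Obj P) ∈ X → (Sum.inl (nm x₂) : Obj P) ∈ X →
    (∃ p ∈ G, Sm S c n x₁ x₂ p) ∨ ∃ p ∈ G, ∀ q ≤ p, ¬ Sm S c n x₁ x₂ q
  kc : ∀ (c : Nm P) (n : ℕ) (s : List Bool), (Sum.inl c : Obj P) ∈ X →
    (∃ p ∈ G, S.K c n s p) ∨ ∃ p ∈ G, ∀ q ≤ p, ¬ S.K c n s q

variable {E} {S}

theorem common {X : Set (Obj P)} {G : Set P} (h : Basic X G) {p q r : P} (hp : p ∈ G)
    (hq : q ∈ G) (hr : r ∈ G) : ∃ s ∈ G, s ≤ p ∧ s ≤ q ∧ s ≤ r := by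
  obtain ⟨s, hs, h1, h2⟩ := h.filt.compat hp hq
  obtain ⟨t, ht, h3, h4⟩ := h.filt.compat hs hr
  exact ⟨t, ht, h3.trans h1, h3.trans h2, h4⟩

/-- The core theorem applied. -/
theorem core {X : Set (Obj P)} {G : Set P} (hb : Basic X G) (hD : Dic E S X G)
    (hM : Main P E S.Nb) {g c : Nm P} (hg : (Sum.inl g : Obj P) ∈ X) (hc : (Sum.inl c : Obj P) ∈ X)
    (h1 : ∀ p ∈ G, ∀ α, (Sum.inl (aN P α) : Obj P) ∈ X → ¬ Bad1 E S g α p)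
    (h2 : ∀ p ∈ G, ∀ x₁ x₂, (Sum.inl (nm x₁) : Obj P) ∈ X → (Sum.inl (nm x₂) : Obj P) ∈ X →
      ¬ Bad2 S g c x₁ x₂ p)
    (h3 : ∀ p ∈ G, ∀ n s, ¬ Bad3 S c n s p) : False := by
  rcases hD.bad1 g hg with ⟨p, hp, α, hα, h⟩ | ⟨p₁, hp₁, k1⟩
  · exact h1 p hp α hα h
  rcases hD.bad2 g c hg hc with ⟨p, hp, x₁, x₂, hx₁, hx₂, h⟩ | ⟨p₂, hp₂, k2⟩
  · exact h2 p hp x₁ x₂ hx₁ hx₂ h
  rcases hD.bad3 c hc with ⟨p, hp, n, s, h⟩ | ⟨p₃, hp₃, k3⟩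
  · exact h3 p hp n s h
  obtain ⟨p, -, e1, e2, e3⟩ := common hb hp₁ hp₂ hp₃
  refine hM p (fun x q => S.GG g x q) (fun x q r => S.mono g x q r) (fun n => S.CF c n) ?_ ?_ ?_
  · intro n q hq σ
    have h := k3 q (hq.trans e3) n σ
    rw [Bad3] at h
    push Not at h
    obtain ⟨r, hr, τ, hτ, hO⟩ := h
    exact ⟨r, hr, τ, hτ, hO⟩
  · intro α q hq
    have h := k1 q (hq.trans e1) α
    rw [Bad1] at h
    push Not at h
    obtain ⟨r, hr, x, hx, hF⟩ := h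
    exact ⟨r, hr, x, hx, fun j r' hr' => hF j r' hr'⟩
  · intro x₁ x₂ q hq hx₁ hx₂
    have h := k2 q (hq.trans e2) x₁ x₂
    rw [Bad2] at h
    push Not at h
    obtain ⟨r, hr, n, hn⟩ := h hx₁ hx₂
    exact ⟨r, hr, n, fun r' hr' ρ τ => hn r' hr' ρ τ⟩

/-- `SumIn` fails in the generic case only if there is a witness -/
theorem bad2_false {X : Set (Obj P)} {G : Set P} (hb : Basic X G) (hD : Dic E S X G)
    {g c : Nm P} (hc : (Sum.inl c : Obj P) ∈ X) {p : P} (hp : p ∈ G) {x₁ x₂ : PN P}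
    (hx₁ : (Sum.inl (nm x₁) : Obj P) ∈ X) (hx₂ : (Sum.inl (nm x₂) : Obj P) ∈ X)
    (h : Bad2 S g c x₁ x₂ p) (n : ℕ) : ∃ p ∈ G, Sm S c n x₁ x₂ p := by
  rcases hD.sm c n x₁ x₂ hc hx₁ hx₂ with h1 | ⟨q, hq, h1⟩
  · exact h1
  · exfalso
    obtain ⟨r, -, hrp, hrq⟩ := hb.filt.compat hp hq
    refine h.2.2 r hrp n fun r' hr' ρ τ hρτ hρ hτ hl => ?_
    exact h1 r' (hr'.trans hrq) ⟨ρ, τ, hρτ, hρ, hτ, hl⟩

end Pool.Agent.Helper26.NE
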