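import Pool.Agent.Helper26.NE.Abs
import Pool.Agent.Helper34.SG.Names

/-!
# The translation of the combinatorial core theorem to partial orders
-/

set_option linter.unusedSectionVars false

namespace Pool.Agent.Helper26.NE

open Pool.Agent.Helper34

variable {I : Type} [LinearOrder I] [WellFoundedLT I]

/-- the valid conditions -/
def VC (κ : I) : Type := {p : SG.Cn I // SG.Val κ p}

instance (κ : I) : Preorder (VC κ) where
  le p q := SG.Le κ p.1 q.1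
  le_refl p := SG.Le.refl κ p.1
  le_trans _ _ _ := SG.Le.trans

/-- the partial order of the valid conditions -/
abbrev PP (κ : I) : Type := Antisymmetrization (VC κ) (· ≤ ·)

/-- the class of a condition -/
def cl {κ : I} (p : SG.Cn I) (h : SG.Val κ p) : PP κ :=
  toAntisymmetrization (α := VC κ) (· ≤ ·) ⟨p, h⟩

/-- a member of a class -/
noncomputable def rp {κ : I} (p : PP κ) : SG.Cn I := (ofAntisymmetrization (· ≤ ·) p : VC κ).1

theorem rp_val {κ : I} (p : PP κ) : SG.Val κ (rp p) := (ofAntisymmetrization (· ≤ ·) p : VC κ).2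

theorem cl_rp {κ : I} (p : PP κ) : cl (rp p) (rp_val p) = p :=
  toAntisymmetrization_ofAntisymmetrization (· ≤ ·) p

theorem cl_le {κ : I} {p q : SG.Cn I} {hp : SG.Val κ p} {hq : SG.Val κ q} :
    cl p hp ≤ cl q hq ↔ SG.Le κ p q :=
  toAntisymmetrization_le_toAntisymmetrization_iff

theorem rp_le {κ : I} {p q : PP κ} : SG.Ext κ (rp p) (rp q) ↔ p ≤ q := by
  constructor
  · intro h
    rw [← cl_rp p, ← cl_rp q]
    exact cl_le.2 h.2
  · intro h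
    rw [← cl_rp p, ← cl_rp q] at h
    exact ⟨rp_val p, cl_le.1 h⟩

theorem rp_cl {κ : I} {p : SG.Cn I} {hp : SG.Val κ p} : SG.Ext κ (rp (cl p hp)) p := by
  refine ⟨rp_val _, ?_⟩
  have h : cl (rp (cl p hp)) (rp_val _) ≤ cl p hp := (cl_rp _).le
  exact cl_le.1 h

theorem le_cl {κ : I} {p : PP κ} {q : SG.Cn I} {hq : SG.Val κ q} :
    p ≤ cl q hq ↔ SG.Ext κ (rp p) q := by
  constructor
  · intro h
    rw [← cl_rp p] at h
    exact ⟨rp_val p, cl_le.1 h⟩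
  · intro h
    rw [← cl_rp p]
    exact cl_le.2 h.2

theorem cl_le' {κ : I} {p : PP κ} {q : SG.Cn I} {hq : SG.Val κ q} :
    cl q hq ≤ p ↔ SG.Ext κ q (rp p) := by
  constructor
  · intro h
    rw [← cl_rp p] at h
    exact ⟨hq, cl_le.1 h⟩
  · intro h
    rw [← cl_rp p]
    exact cl_le.2 h.2

instance (κ : I) : OrderTop (PP κ) where
  top := cl (SG.emp I) (SG.Val_emp κ)
  le_top p := le_cl.2 ⟨rp_val p, SG.Le_emp κ _⟩

/-- names of points -/
noncomputable def toPN {κ : I} (x : SG.RN κ) : PN (PP κ) where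
  D s p := x.D s (rp p)
  mono s p q hq h := (x.reg s).mono _ _ (rp_le.2 hq) h
  dns s p h := by
    refine (x.reg s).dense _ (rp_val p) fun q hq => ?_
    obtain ⟨r, hr, h1⟩ := h (cl q hq.1) (cl_le'.2 hq)
    exact ⟨rp r, le_cl.1 hr, h1⟩
  nil p := x.nil _
  pre s b p h := x.pre s b _ h
  con s t p hs ht := x.cons _ s t (rp_val p) hs ht
  tot k p := by
    obtain ⟨q, s, hq, hs, hD⟩ := x.dense k _ (rp_val p)
    exact ⟨cl q hq.1, cl_le'.2 hq, s, hs, (x.reg s).mono _ _ rp_cl hD⟩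

/-- names of points -/
def ofPN {κ : I} (x : PN (PP κ)) : SG.RN κ where
  D s q := ∀ h : SG.Val κ q, x.D s (cl q h)
  reg s :=
    ⟨fun p q hq h h' => x.mono s (cl p (SG.Val.up hq)) _ (cl_le.2 hq.2) (h (SG.Val.up hq)),
      fun p hp h h' => by
        refine x.dns _ _ fun q hq => ?_
        obtain ⟨r, hr, h1⟩ := h (rp q) (le_cl.1 hq)
        exact ⟨cl r hr.1, cl_le'.2 hr, h1 hr.1⟩⟩
  nil p h := x.nil _
  pre s b p h h' := x.pre s b _ (h h')
  cons p s t hp hs ht := x.con s t _ (hs hp) (ht hp)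
  dense k p hp := by
    obtain ⟨q, hq, s, hs, hD⟩ := x.tot k (cl p hp)
    refine ⟨rp q, s, le_cl.1 hq, hs, fun h => ?_⟩
    rw [cl_rp]
    exact hD

theorem ofPN_D {κ : I} (x : PN (PP κ)) (s : List Bool) (p : PP κ) :
    (ofPN x).D s (rp p) ↔ x.D s p := by
  constructor
  · intro h
    have := h (rp_val p)
    rwa [cl_rp] at this
  · intro h h'
    rwa [cl_rp]

theorem toPN_ofPN {κ : I} (x : PN (PP κ)) : toPN (ofPN x) = x := by
  have hD : (toPN (ofPN x)).D = x.D := by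
    funext s p
    exact propext (ofPN_D x s p)
  cases h : toPN (ofPN x)
  cases x
  rw [h] at hD
  simp only at hD
  subst hD
  rfl

/-- names of closed sets -/
def ofCN {κ : I} (C : CN (PP κ)) : SG.CN κ where
  O s q := ∃ h : SG.Val κ q, C.O s (cl q h)
  reg s :=
    ⟨fun p q hq ⟨_, h⟩ => ⟨hq.1, C.mono s _ _ (cl_le.2 hq.2) h⟩, fun p hp h => by
      refine ⟨hp, C.dns _ _ fun q hq => ?_⟩
      obtain ⟨r, hr, h1, h2⟩ := h (rp q) (le_cl.1 hq)
      exact ⟨cl r h1, cl_le'.2 hr, h2⟩⟩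
  ext s b p := fun ⟨h, h1⟩ => ⟨h, C.ext s b _ h1⟩
  split s p hp := fun ⟨_, h1⟩ ⟨_, h2⟩ => ⟨hp, C.spl s _ h1 h2⟩

theorem EC_mono {κ α α' : I} (hα : α < κ) (hα' : α' < κ) {k : ℕ} {p q : SG.Cn I}
    (hq : SG.Ext κ q p) (h : SG.EC α α' k p) : SG.EC α α' k q := by
  obtain ⟨j, m, b, s, rfl, h1, h2, h3, h4, h5, h6⟩ := h
  have hle := (SG.Le_iff κ q p).1 hq.2
  obtain ⟨k1, k2, -, -⟩ := hle α hα h2
  obtain ⟨l1, l2, -, -⟩ := hle α' hα' h3
  obtain ⟨u, hu⟩ := k2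
  obtain ⟨w, hw⟩ := l2
  refine ⟨j, m, b, s, rfl, h1, k1, l1, ?_, ?_, ?_⟩
  · rw [← hw, List.getElem?_append_left (List.getElem?_eq_some_iff.1 h4).1, h4]
  · rw [← hu, List.length_append]
    omega
  · intro n v hmn hnb hv
    rw [← hu, List.getElem?_append_left (by omega)] at hv
    exact h6 n v hmn hnb hv

/-- the codes of the sets of the stages -/
noncomputable def EE {κ : I} (sc : I → I) (α : {α : I // α < κ}) (k : ℕ) (p : PP κ) : Prop :=
  SG.EC α.1 (sc α.1) k (rp p)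

/-- the statement of the core theorem -/
def MainC (κ : I) (sc : I → I) (Nb : List Bool → List Bool → Finset (List Bool)) : Prop :=
  ∀ {p : SG.Cn I} (_ : SG.Val κ p)
    (GG : SG.RN κ → SG.Cn I → Prop) (_ : ∀ x q r, SG.Ext κ r q → GG x q → GG x r)
    (C : ℕ → SG.CN κ) (_ : ∀ n, SG.NWD κ (C n).O p)
    (_ : ∀ α < κ, ∀ q, SG.Ext κ q p → ∃ q' x, SG.Ext κ q' q ∧ GG x q' ∧
      ∀ j r, SG.Ext κ r q' → ¬ SG.FIn κ x (SG.EC α (sc α)) j r)
    (_ : ∀ x₁ x₂ q, SG.Ext κ q p → GG x₁ q → GG x₂ q →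
      ∃ q' n, SG.Ext κ q' q ∧ SG.SumIn κ Nb x₁ x₂ (C n).O q'), False

theorem main_of {κ : I} {sc : I → I} {Nb : List Bool → List Bool → Finset (List Bool)}
    (h : MainC κ sc Nb) : Main (PP κ) (EE (κ := κ) sc) Nb := by
  intro p GG hGG C hC h1 h2
  refine h (rp_val p) (fun x q => ∃ hq : SG.Val κ q, GG (toPN x) (cl q hq)) ?_
    (fun n => ofCN (C n)) ?_ ?_ ?_
  · rintro x q r hr ⟨hq, h3⟩
    exact ⟨hr.1, hGG _ _ _ (cl_le.2 hr.2) h3⟩
  · intro n q hq σ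
    obtain ⟨r, hr, τ, hτ, hO⟩ := hC n (cl q hq.1) (cl_le'.2 hq) σ
    refine ⟨rp r, τ, le_cl.1 hr, hτ, rp_val r, ?_⟩
    rw [cl_rp]
    exact hO
  · intro α hα q hq
    obtain ⟨q', hq', x, hx, hF⟩ := h1 ⟨α, hα⟩ (cl q hq.1) (cl_le'.2 hq)
    refine ⟨rp q', ofPN x, le_cl.1 hq', ⟨rp_val q', ?_⟩, fun j r hr hFI => ?_⟩
    · rw [cl_rp, toPN_ofPN]
      exact hx
    · refine hF j (cl r hr.1) (cl_le'.2 hr) fun s p hp hEp q hqp hxq => ?_
      exact hFI s (rp p) (le_cl.1 hp) hEp (rp q) (rp_le.2 hqp) ((ofPN_D x s q).2 hxq)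
  · rintro x₁ x₂ q hq ⟨hv, hx₁⟩ ⟨_, hx₂⟩
    obtain ⟨q', hq', n, hS⟩ := h2 (toPN x₁) (toPN x₂) (cl q hv) (cl_le'.2 hq) hx₁ hx₂
    refine ⟨rp q', n, le_cl.1 hq', fun r hr ρ τ hρτ hρ hτ hl => ?_⟩
    refine hS (cl r hr.1) (cl_le'.2 hr) ρ τ hρτ ((x₁.reg ρ).mono _ _ rp_cl hρ)
      ((x₂.reg τ).mono _ _ rp_cl hτ) fun l hl' => ?_
    obtain ⟨h', h''⟩ := hl l hl'
    exact h''

/-- **Everything from the combinatorial side.** -/
theorem side_of {κ : I} {sc : I → I} (hκ : SG.Long κ sc) (h1 : MainC κ sc SG.NbC)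
    (h2 : MainC κ sc SG.NbR)
    (h3 : ∀ α < κ, ∀ (p : SG.Cn I), SG.Val κ p → ∀ j k : ℕ, ∃ q, SG.Ext κ q p ∧
      ∃ (n : ℕ) (S : Finset (List Bool)), (∀ s ∈ S, s.length = n) ∧ S.card * 2 ^ k ≤ 2 ^ n ∧
        ∀ s : List Bool, s.length = n → s ∉ S →
          SG.EC α (sc α) (Nat.pair j (Encodable.encode s)) q) :
    Side (PP κ) (EE (κ := κ) sc) where
  mono α k p q hq h := EC_mono α.2 (hκ.sc_lt _ α.2) (rp_le.2 hq) h
  null α j k p := by
    obtain ⟨q, hq, n, S, h4, h5, h6⟩ := h3 α.1 α.2 (rp p) (rp_val p) j k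
    exact ⟨cl q hq.1, cl_le'.2 hq, n, S, h4, h5, fun s hs hsS =>
      EC_mono α.2 (hκ.sc_lt _ α.2) rp_cl (h6 s hs hsS)⟩
  cantor := main_of h1
  circle := main_of h2

end Pool.Agent.Helper26.NE
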